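import Mathlib

/-!
# Growth estimate for the transcendence measure of `e`
-/

set_option autoImplicit false

namespace Pool.Agent.EMeas

open scoped Nat

theorem exists_big (g : ℕ) (hg : 1 ≤ g) (K B H : ℝ) (hB : 1 ≤ B) :
    ∃ m : ℕ, 1 ≤ m ∧ K * H * B ^ (1 + m * g) ≤ ((m * g)! : ℕ) := by
  have h1 := FloorSemiring.tendsto_pow_div_factorial_atTop (K := ℝ) B
  have h2 : ∀ᶠ m : ℕ in Filter.atTop, B ^ m / (m ! : ℝ) < 1 / (|K * H * B| + 1) :=
    h1.eventually (gt_mem_nhds (by positivity))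
  obtain ⟨M, hM⟩ := Filter.eventually_atTop.1 h2
  refine ⟨M + 1, by omega, ?_⟩
  have h3 := hM ((M + 1) * g) (by nlinarith)
  rw [div_lt_div_iff₀ (by positivity) (by positivity), one_mul] at h3
  have h4 : K * H * B ^ (1 + (M + 1) * g) = K * H * B * B ^ ((M + 1) * g) := by ring
  rw [h4]
  have h5 : K * H * B ≤ |K * H * B| + 1 := (le_abs_self _).trans (by linarith)
  have h6 : (0 : ℝ) ≤ B ^ ((M + 1) * g) := by positivity
  nlinarith

theorem growth (n g : ℕ) (hg : 1 ≤ g) (K B ε : ℝ) (hK : 1 ≤ K) (hB : 1 ≤ B) (hε : 0 < ε) :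
    ∃ c : ℝ, 0 < c ∧ ∀ H : ℝ, 1 ≤ H → ∀ L : ℝ, 0 ≤ L →
      (∀ m : ℕ, 1 ≤ m → K * H * B ^ (1 + m * g) ≤ ((m * g)! : ℕ) →
        (((m * g)! : ℕ) : ℝ) ≤ 2 * (((n + 1) * (1 + m * g))! : ℕ) * B ^ (1 + m * g) * L) →
      c * H ^ (-((n : ℝ) + ε)) ≤ L := by
  set K' : ℝ := K * ((1 + g)! : ℕ) with hK'
  set E2 : ℝ := B * 2 ^ (g + 1) with hE2
  set B' : ℝ := ((n : ℝ) + 1) ^ (n + 1) with hB'
  set E1 : ℝ := 4 * B' * Real.exp 1 ^ (n + 1) * B with hE1
  set E : ℝ := E1 * E2 ^ n with hE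
  set R : ℝ := E2 * E ^ (1 / ε) with hR
  set C : ℝ := Real.exp R with hC
  have hfac1 : (1 : ℝ) ≤ ((1 + g)! : ℕ) := by exact_mod_cast Nat.one_le_iff_ne_zero.2 (Nat.factorial_ne_zero _)
  have hK1 : 1 ≤ K' := one_le_mul_of_one_le_of_one_le hK hfac1
  have hE21 : 1 ≤ E2 := one_le_mul_of_one_le_of_one_le hB (one_le_pow₀ (by norm_num))
  have hB'1 : 1 ≤ B' := one_le_pow₀ (by have : (0 : ℝ) ≤ n := n.cast_nonneg; linarith)
  have hE11 : 1 ≤ E1 := by
    have h1 : (1 : ℝ) ≤ Real.exp 1 ^ (n + 1) := one_le_pow₀ (Real.one_le_exp zero_le_one)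
    have h2 : (1 : ℝ) ≤ 4 * B' := by linarith
    exact one_le_mul_of_one_le_of_one_le (one_le_mul_of_one_le_of_one_le h2 h1) hB
  have hEE : 1 ≤ E := one_le_mul_of_one_le_of_one_le hE11 (one_le_pow₀ hE21)
  have hR0 : 0 < R := by positivity
  refine ⟨(K' ^ n * (C * K') ^ ε)⁻¹, by positivity, fun H hH L hL hyp => ?_⟩
  classical
  obtain ⟨m, hm1, hmT, hmin0⟩ : ∃ m : ℕ, 1 ≤ m ∧ K * H * B ^ (1 + m * g) ≤ ((m * g)! : ℕ) ∧
      ∀ m' < m, ¬ (1 ≤ m' ∧ K * H * B ^ (1 + m' * g) ≤ ((m' * g)! : ℕ)) := by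
    have hex := exists_big g hg K B H hB
    exact ⟨Nat.find hex, (Nat.find_spec hex).1, (Nat.find_spec hex).2,
      fun m' h => Nat.find_min hex h⟩
  set N : ℕ := 1 + m * g with hN
  have hN1 : 1 ≤ N := by omega
  -- upper bound for N!
  have hup : ((N ! : ℕ) : ℝ) ≤ K' * H * E2 ^ N := by
    rcases Nat.lt_or_ge 1 m with h | h
    · have hmin := hmin0 (m - 1) (by omega)
      have hmin' : (((m - 1) * g)! : ℕ) < K * H * B ^ (1 + (m - 1) * g) := by
        by_contra hc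
        exact hmin ⟨by omega, not_lt.1 hc⟩
      have hNd : N = (m - 1) * g + (g + 1) := by
        obtain ⟨m', hm'⟩ : ∃ m', m = m' + 1 := ⟨m - 1, by omega⟩
        rw [hN, hm', Nat.add_sub_cancel]; ring
      have h1 : N ! ≤ ((m - 1) * g)! * N ^ (g + 1) := by
        conv_lhs => rw [hNd]
        rw [← Nat.factorial_mul_ascFactorial]
        refine Nat.mul_le_mul_left _ ((Nat.ascFactorial_le_pow_add _ _).trans ?_)
        rw [← hNd]
      have h2 : ((N ! : ℕ) : ℝ) ≤ (((m - 1) * g)! : ℕ) * (N : ℝ) ^ (g + 1) := by exact_mod_cast h1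
      have h3 : (N : ℝ) ≤ 2 ^ N := by exact_mod_cast Nat.lt_two_pow_self.le
      have h4 : B ^ (1 + (m - 1) * g) ≤ B ^ N := pow_le_pow_right₀ hB (by omega)
      calc ((N ! : ℕ) : ℝ) ≤ (((m - 1) * g)! : ℕ) * (N : ℝ) ^ (g + 1) := h2
        _ ≤ (K * H * B ^ N) * (2 ^ N) ^ (g + 1) := by
            refine mul_le_mul (hmin'.le.trans (mul_le_mul_of_nonneg_left h4 (by positivity)))
              (pow_le_pow_left₀ (by positivity) h3 _) (by positivity) (by positivity)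
        _ = K * H * E2 ^ N := by rw [hE2, mul_pow, ← pow_mul, ← pow_mul, Nat.mul_comm N]; ring
        _ ≤ K' * H * E2 ^ N := by
            refine mul_le_mul_of_nonneg_right (mul_le_mul_of_nonneg_right ?_ (by positivity))
              (by positivity)
            exact le_mul_of_one_le_right (by positivity) hfac1
    · have hm' : m = 1 := le_antisymm h hm1
      have h1 : N = 1 + g := by rw [hN, hm', one_mul]
      rw [h1]
      have h2 : (((1 + g)! : ℕ) : ℝ) ≤ K' := le_mul_of_one_le_left (by positivity) hK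
      have h3 : (1 : ℝ) ≤ H * E2 ^ (1 + g) :=
        one_le_mul_of_one_le_of_one_le hH (one_le_pow₀ hE21)
      calc (((1 + g)! : ℕ) : ℝ) ≤ K' * 1 := by rw [mul_one]; exact h2
        _ ≤ K' * (H * E2 ^ (1 + g)) := mul_le_mul_of_nonneg_left h3 (by positivity)
        _ = K' * H * E2 ^ (1 + g) := by ring
  have hlow := hyp m hm1 hmT
  rw [← hN] at hlow
  have hNfac : ((N ! : ℕ) : ℝ) = N * ((m * g)! : ℕ) := by
    rw [hN, Nat.add_comm 1, Nat.factorial_succ]; push_cast; ring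
  have hNN : (N : ℝ) ^ N ≤ Real.exp 1 ^ N * (N ! : ℕ) := by
    have := Real.pow_div_factorial_le_exp (N : ℝ) (by positivity) N
    rw [div_le_iff₀ (by positivity)] at this
    rwa [← Real.exp_nat_mul, mul_one]
  have hfac : ((((n + 1) * N)! : ℕ) : ℝ) ≤ B' ^ N * (Real.exp 1 ^ (n + 1)) ^ N *
      ((N ! : ℕ) : ℝ) ^ (n + 1) := by
    have h1 : (((n + 1) * N)! : ℕ) ≤ ((n + 1) * N) ^ ((n + 1) * N) := Nat.factorial_le_pow _
    calc ((((n + 1) * N)! : ℕ) : ℝ) ≤ (((n : ℝ) + 1) * N) ^ ((n + 1) * N) := by exact_mod_cast h1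
      _ = B' ^ N * ((N : ℝ) ^ N) ^ (n + 1) := by
          rw [mul_pow, hB', ← pow_mul, ← pow_mul, Nat.mul_comm N]
      _ ≤ B' ^ N * (Real.exp 1 ^ N * (N ! : ℕ)) ^ (n + 1) := by
          refine mul_le_mul_of_nonneg_left (pow_le_pow_left₀ (by positivity) hNN _) (by positivity)
      _ = _ := by rw [mul_pow, ← pow_mul, ← pow_mul, Nat.mul_comm N]; ring
  have hNpos : (0 : ℝ) < (N ! : ℕ) := by exact_mod_cast Nat.factorial_pos N
  have h1 : 1 ≤ E1 ^ N * ((N ! : ℕ) : ℝ) ^ n * L := by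
    have h2 : (2 * (N : ℝ)) ≤ 4 ^ N := by
      have h3 : (N : ℝ) ≤ 2 ^ N := by exact_mod_cast Nat.lt_two_pow_self.le
      have h4 : (2 : ℝ) ≤ 2 ^ N := le_self_pow₀ (by norm_num) (by omega)
      calc (2 * (N : ℝ)) ≤ 2 ^ N * 2 ^ N := mul_le_mul h4 h3 (by positivity) (by positivity)
        _ = 4 ^ N := by rw [← mul_pow]; norm_num
    have h5 : ((N ! : ℕ) : ℝ) ≤ ((N ! : ℕ) : ℝ) * (E1 ^ N * ((N ! : ℕ) : ℝ) ^ n * L) := by
      calc ((N ! : ℕ) : ℝ) = N * ((m * g)! : ℕ) := hNfac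
        _ ≤ N * (2 * (((n + 1) * N)! : ℕ) * B ^ N * L) :=
            mul_le_mul_of_nonneg_left hlow (by positivity)
        _ ≤ N * (2 * (B' ^ N * (Real.exp 1 ^ (n + 1)) ^ N * ((N ! : ℕ) : ℝ) ^ (n + 1)) *
              B ^ N * L) := by
            refine mul_le_mul_of_nonneg_left (mul_le_mul_of_nonneg_right
              (mul_le_mul_of_nonneg_right (mul_le_mul_of_nonneg_left hfac (by norm_num))
              (by positivity)) hL) (by positivity)
        _ = 2 * N * ((B' ^ N * (Real.exp 1 ^ (n + 1)) ^ N * ((N ! : ℕ) : ℝ) ^ (n + 1)) *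
              B ^ N * L) := by ring
        _ ≤ 4 ^ N * ((B' ^ N * (Real.exp 1 ^ (n + 1)) ^ N * ((N ! : ℕ) : ℝ) ^ (n + 1)) *
              B ^ N * L) := mul_le_mul_of_nonneg_right h2 (by positivity)
        _ = _ := by rw [hE1, mul_pow, mul_pow, mul_pow, pow_succ]; ring
    exact le_of_mul_le_mul_left (by linarith) hNpos
  have h2 : 1 ≤ K' ^ n * H ^ n * E ^ N * L := by
    refine h1.trans ?_
    calc E1 ^ N * ((N ! : ℕ) : ℝ) ^ n * L ≤ E1 ^ N * (K' * H * E2 ^ N) ^ n * L := by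
          refine mul_le_mul_of_nonneg_right (mul_le_mul_of_nonneg_left
            (pow_le_pow_left₀ (by positivity) hup _) (by positivity)) hL
      _ = K' ^ n * H ^ n * E ^ N * L := by
          rw [hE]; ring_nf
  have h3 : E ^ N ≤ (C * K' * H) ^ ε := by
    have h4 : R ^ N ≤ C * (N ! : ℕ) := by
      have := Real.pow_div_factorial_le_exp R hR0.le N
      rwa [div_le_iff₀ (by positivity)] at this
    have h5 : (E ^ (1 / ε)) ^ N ≤ C * K' * H := by
      have h6 : E2 ^ N * (E ^ (1 / ε)) ^ N ≤ E2 ^ N * (C * K' * H) := by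
        calc E2 ^ N * (E ^ (1 / ε)) ^ N = R ^ N := (mul_pow E2 (E ^ (1 / ε)) N).symm
          _ ≤ C * (N ! : ℕ) := h4
          _ ≤ C * (K' * H * E2 ^ N) := mul_le_mul_of_nonneg_left hup (by positivity)
          _ = _ := by ring
      exact le_of_mul_le_mul_left h6 (by positivity)
    have h7 : ((E ^ (1 / ε)) ^ N) ^ ε = E ^ N := by
      rw [← Real.rpow_natCast, ← Real.rpow_mul (by positivity), ← Real.rpow_mul (by positivity),
        ← Real.rpow_natCast]
      congr 1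
      field_simp
    rw [← h7]
    exact Real.rpow_le_rpow (by positivity) h5 hε.le
  have h4 : 1 ≤ K' ^ n * H ^ n * (C * K' * H) ^ ε * L := by
    refine h2.trans (mul_le_mul_of_nonneg_right (mul_le_mul_of_nonneg_left h3 (by positivity)) hL)
  have h5 : K' ^ n * H ^ n * (C * K' * H) ^ ε * L =
      (K' ^ n * (C * K') ^ ε) * H ^ ((n : ℝ) + ε) * L := by
    rw [Real.mul_rpow (by positivity) (by positivity), Real.rpow_add (by positivity),
      Real.rpow_natCast]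
    ring
  rw [h5] at h4
  rw [Real.rpow_neg (by positivity), ← mul_inv, inv_le_iff_one_le_mul₀ (by positivity)]
  linarith

end Pool.Agent.EMeas
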