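import Mathlib
import Pool.Agent.EMeas.Growth

/-!
# A transcendence measure of `e` (Hermite, Mahler, Popken)
-/

set_option autoImplicit false

namespace Pool.Agent.EMeas

open Polynomial Finset
open scoped Nat

/-- Hermite's auxiliary polynomials. -/
noncomputable def fp (n N : ℕ) (i : Fin (n + 1)) : ℤ[X] :=
  (X - C ((i : ℕ) : ℤ)) ^ (N - 1) * ∏ j ∈ univ.erase i, (X - C ((j : ℕ) : ℤ)) ^ N

/-- The unit in the diagonal of the matrix. -/
def du (n N : ℕ) (i : Fin (n + 1)) : ℤ :=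
  ∏ j ∈ univ.erase i, (((i : ℕ) : ℤ) - ((j : ℕ) : ℤ)) ^ N

theorem exists_values (n N : ℕ) (hN : 0 < N) (i : Fin (n + 1)) : ∃ g : ℤ[X], ∀ k : Fin (n + 1),
    eval ((k : ℕ) : ℤ) (sumIDeriv (fp n N i)) =
      ((N - 1)! : ℕ) * ((if i = k then du n N i else 0) + N * eval ((k : ℕ) : ℤ) g) := by
  obtain ⟨g, _, hg⟩ := eval_sumIDeriv_of_pos (fp n N i) hN
  refine ⟨g, fun k => ?_⟩
  have hfac : ((N ! : ℕ) : ℤ) = ((N - 1)! : ℕ) * N := by
    rw [← Nat.mul_factorial_pred hN.ne']; push_cast; ring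
  by_cases h : i = k
  · subst h
    have h1 := hg ((i : ℕ) : ℤ) (p' := ∏ j ∈ univ.erase i, (X - C ((j : ℕ) : ℤ)) ^ N) rfl
    rw [h1, if_pos rfl, eval_prod]
    simp only [nsmul_eq_mul, eval_pow, eval_sub, eval_X, eval_C]
    rw [hfac, du]
    ring
  · have hk : k ∈ (univ : Finset (Fin (n + 1))).erase i := mem_erase.2 ⟨fun e => h e.symm, mem_univ _⟩
    have h2 : fp n N i = (X - C ((k : ℕ) : ℤ)) ^ (N - 1) * ((X - C ((k : ℕ) : ℤ)) *
        ((X - C ((i : ℕ) : ℤ)) ^ (N - 1) *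
          ∏ j ∈ (univ.erase i).erase k, (X - C ((j : ℕ) : ℤ)) ^ N)) := by
      rw [fp, ← mul_prod_erase _ _ hk]
      obtain ⟨m, rfl⟩ : ∃ m, N = m + 1 := ⟨N - 1, by omega⟩
      rw [Nat.add_sub_cancel]
      ring
    have h1 := hg ((k : ℕ) : ℤ) h2
    rw [h1, if_neg h]
    simp only [nsmul_eq_mul, eval_mul, eval_sub, eval_X, eval_C, sub_self, zero_mul, mul_zero]
    rw [hfac]
    ring

theorem du_coprime (n N : ℕ) (hmod : N ≡ 1 [MOD n !]) (i : Fin (n + 1)) :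
    IsCoprime (du n N i) (N : ℤ) := by
  refine IsCoprime.prod_left fun j hj => IsCoprime.pow_left ?_
  have hij : j ≠ i := (mem_erase.1 hj).1
  rw [Int.isCoprime_iff_gcd_eq_one, Int.gcd_eq_natAbs, Int.natAbs_natCast]
  set d := (((i : ℕ) : ℤ) - ((j : ℕ) : ℤ)).natAbs with hd
  have h0 : 0 < d := by
    rw [hd, Int.natAbs_pos]
    intro h
    exact hij (Fin.ext (by omega))
  have h1 : d ≤ n := by
    have := i.2; have := j.2
    omega
  have h2 : d ∣ n ! := Nat.dvd_factorial h0 h1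
  have h3 : Nat.gcd (n !) N = 1 := by
    rw [Nat.gcd_comm, hmod.gcd_eq, Nat.gcd_one_left]
  exact Nat.Coprime.coprime_dvd_left h2 h3

/-- The integer matrix of the values. -/
theorem exists_matrix (n N : ℕ) (hN : 2 ≤ N) (hmod : N ≡ 1 [MOD n !]) :
    ∃ M : Matrix (Fin (n + 1)) (Fin (n + 1)) ℤ, M.det ≠ 0 ∧ ∀ i k : Fin (n + 1),
      eval ((k : ℕ) : ℤ) (sumIDeriv (fp n N i)) = ((N - 1)! : ℕ) * M i k := by
  choose g hg using exists_values n N (by omega)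
  refine ⟨Matrix.of fun i k => (if i = k then du n N i else 0) + N * eval ((k : ℕ) : ℤ) (g i), ?_,
    fun i k => hg i k⟩
  intro h0
  have h1 := congrArg (Int.castRingHom (ZMod N)) h0
  rw [RingHom.map_det, map_zero] at h1
  have h2 : (Int.castRingHom (ZMod N)).mapMatrix (Matrix.of fun i k =>
      (if i = k then du n N i else 0) + N * eval ((k : ℕ) : ℤ) (g i)) =
      Matrix.diagonal fun i => ((du n N i : ℤ) : ZMod N) := by
    ext i k
    simp only [RingHom.mapMatrix_apply, Matrix.map_apply, Matrix.of_apply, map_add, map_mul,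
      Matrix.diagonal_apply]
    rw [show (Int.castRingHom (ZMod N)) (N : ℤ) = 0 by simp, zero_mul, add_zero]
    split_ifs <;> simp
  rw [h2, Matrix.det_diagonal] at h1
  have : Fact (1 < N) := ⟨by omega⟩
  have h3 : IsUnit (∏ i, ((du n N i : ℤ) : ZMod N)) := by
    rw [IsUnit.prod_univ_iff]
    intro i
    obtain ⟨a, b, hab⟩ := du_coprime n N hmod i
    have h4 := congrArg (Int.castRingHom (ZMod N)) hab
    simp only [map_add, map_mul, map_one, eq_intCast, Int.cast_natCast, CharP.cast_eq_zero,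
      mul_zero, add_zero] at h4
    exact IsUnit.of_mul_eq_one_right _ h4
  exact h3.ne_zero h1

/-- Coefficientwise domination. -/
def Dom (p P : ℤ[X]) : Prop := ∀ i, |p.coeff i| ≤ P.coeff i

theorem Dom.mul {p P q Q : ℤ[X]} (h1 : Dom p P) (h2 : Dom q Q) : Dom (p * q) (P * Q) := by
  intro i
  rw [coeff_mul, coeff_mul]
  refine (Finset.abs_sum_le_sum_abs _ _).trans (Finset.sum_le_sum fun x _ => ?_)
  rw [abs_mul]
  exact mul_le_mul (h1 _) (h2 _) (abs_nonneg _) ((abs_nonneg _).trans (h1 _))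

theorem Dom.one : Dom 1 1 := by
  intro i
  rw [coeff_one]
  split_ifs <;> simp

theorem Dom.pow {p P : ℤ[X]} (h : Dom p P) : ∀ n : ℕ, Dom (p ^ n) (P ^ n)
  | 0 => by rw [pow_zero, pow_zero]; exact Dom.one
  | n + 1 => by rw [pow_succ, pow_succ]; exact (Dom.pow h n).mul h

theorem Dom.prod {ι : Type} (s : Finset ι) (p P : ι → ℤ[X]) (h : ∀ i ∈ s, Dom (p i) (P i)) :
    Dom (∏ i ∈ s, p i) (∏ i ∈ s, P i) := by
  classical
  induction s using Finset.induction_on with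
  | empty => rw [prod_empty, prod_empty]; exact Dom.one
  | insert a s ha ih =>
    rw [prod_insert ha, prod_insert ha]
    exact (h a (mem_insert_self _ _)).mul (ih fun i hi => h i (mem_insert_of_mem hi))

theorem Dom.X_sub (a : ℕ) : Dom (X - C (a : ℤ)) (X + C (a : ℤ)) := by
  intro i
  rw [coeff_sub, coeff_add, coeff_X, coeff_C]
  split_ifs with h1 h2 h2
  · omega
  · simp
  · simp
  · simp

theorem Dom.nonneg {p P : ℤ[X]} (h : Dom p P) (i : ℕ) : 0 ≤ P.coeff i := (abs_nonneg _).trans (h i)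

theorem fp_natDegree (n N : ℕ) (hN : 1 ≤ N) (i : Fin (n + 1)) :
    (fp n N i).natDegree ≤ (n + 1) * N := by
  unfold fp
  refine natDegree_mul_le.trans ?_
  have h1 : ((X - C ((i : ℕ) : ℤ)) ^ (N - 1)).natDegree ≤ N := by
    refine natDegree_pow_le.trans ?_
    rw [natDegree_X_sub_C]; omega
  have h2 : (∏ j ∈ univ.erase i, (X - C ((j : ℕ) : ℤ)) ^ N).natDegree ≤ n * N := by
    refine (natDegree_prod_le _ _).trans ?_
    refine (Finset.sum_le_card_nsmul _ _ N fun j _ => ?_).trans ?_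
    · refine natDegree_pow_le.trans ?_
      rw [natDegree_X_sub_C, mul_one]
    · rw [card_erase_of_mem (mem_univ _), card_univ, Fintype.card_fin, smul_eq_mul,
        Nat.add_sub_cancel]
  calc _ ≤ N + n * N := Nat.add_le_add h1 h2
    _ = (n + 1) * N := by ring

/-- The dominating polynomial. -/
noncomputable def fP (n N : ℕ) (i : Fin (n + 1)) : ℤ[X] :=
  (X + C ((i : ℕ) : ℤ)) ^ (N - 1) * ∏ j ∈ univ.erase i, (X + C ((j : ℕ) : ℤ)) ^ N

theorem fp_dom (n N : ℕ) (i : Fin (n + 1)) : Dom (fp n N i) (fP n N i) :=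
  ((Dom.X_sub _).pow _).mul (Dom.prod _ _ _ fun _ _ => (Dom.X_sub _).pow _)

theorem prod_bound {n N : ℕ} (i : Fin (n + 1)) (f : Fin (n + 1) → ℝ) (hf0 : ∀ j, 0 ≤ f j)
    (hf : ∀ j, f j ≤ n + 1) :
    f i ^ (N - 1) * ∏ j ∈ univ.erase i, f j ^ N ≤ (((n : ℝ) + 1) ^ (n + 1)) ^ N := by
  have hn : (1 : ℝ) ≤ n + 1 := by have : (0 : ℝ) ≤ n := n.cast_nonneg; linarith
  have h1 : f i ^ (N - 1) ≤ ((n : ℝ) + 1) ^ N :=
    (pow_le_pow_left₀ (hf0 i) (hf i) _).trans (pow_le_pow_right₀ hn (by omega))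
  have h2 : ∏ j ∈ univ.erase i, f j ^ N ≤ ∏ _j ∈ univ.erase i, ((n : ℝ) + 1) ^ N :=
    Finset.prod_le_prod (fun j _ => pow_nonneg (hf0 j) _)
      (fun j _ => pow_le_pow_left₀ (hf0 j) (hf j) _)
  rw [prod_const, card_erase_of_mem (mem_univ _), card_univ, Fintype.card_fin,
    Nat.add_sub_cancel] at h2
  calc f i ^ (N - 1) * ∏ j ∈ univ.erase i, f j ^ N ≤ ((n : ℝ) + 1) ^ N * (((n : ℝ) + 1) ^ N) ^ n :=
        mul_le_mul h1 h2 (Finset.prod_nonneg fun j _ => pow_nonneg (hf0 j) _) (by positivity)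
    _ = (((n : ℝ) + 1) ^ (n + 1)) ^ N := by rw [← pow_mul, ← pow_mul]; ring

theorem fP_eval (n N : ℕ) (i : Fin (n + 1)) :
    (((fP n N i).eval 1 : ℤ) : ℝ) ≤ (((n : ℝ) + 1) ^ (n + 1)) ^ N := by
  have h1 : (((fP n N i).eval 1 : ℤ) : ℝ) = (1 + ((i : ℕ) : ℝ)) ^ (N - 1) *
      ∏ j ∈ univ.erase i, (1 + ((j : ℕ) : ℝ)) ^ N := by
    unfold fP
    rw [eval_mul, eval_prod]
    simp only [eval_pow, eval_add, eval_X, eval_C]
    push_cast
    rfl
  rw [h1]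
  refine prod_bound i (fun j : Fin (n + 1) => 1 + ((j : ℕ) : ℝ)) (fun j => by positivity) fun j => ?_
  have : ((j : ℕ) : ℝ) ≤ n := by exact_mod_cast Nat.lt_succ_iff.1 j.2
  linarith

theorem eval_zero_sumIDeriv (p : ℤ[X]) {D : ℕ} (hD : p.natDegree ≤ D) :
    eval 0 (sumIDeriv p) = ∑ k ∈ range (D + 1), (k ! : ℕ) * p.coeff k := by
  rw [sumIDeriv_apply_of_le hD, eval_finsetSum]
  refine Finset.sum_congr rfl fun k _ => ?_
  rw [← coeff_zero_eq_eval_zero, coeff_iterate_derivative, zero_add, Nat.descFactorial_self,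
    nsmul_eq_mul]

/-- The bound for the common denominator. -/
theorem F_zero_bound (n N : ℕ) (hN : 1 ≤ N) (i : Fin (n + 1)) :
    |((eval 0 (sumIDeriv (fp n N i)) : ℤ) : ℝ)| ≤
      (((n + 1) * N)! : ℕ) * (((n : ℝ) + 1) ^ (n + 1)) ^ N := by
  have h1 := eval_zero_sumIDeriv _ (fp_natDegree n N hN i)
  have hdom := fp_dom n N i
  have h2 : |eval 0 (sumIDeriv (fp n N i))| ≤ (((n + 1) * N)! : ℕ) * (fP n N i).eval 1 := by
    rw [h1]
    refine (Finset.abs_sum_le_sum_abs _ _).trans ?_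
    have h3 : ∀ k ∈ range ((n + 1) * N + 1), |((k ! : ℕ) : ℤ) * (fp n N i).coeff k| ≤
        (((n + 1) * N)! : ℕ) * (fP n N i).coeff k := by
      intro k hk
      rw [abs_mul, Nat.abs_cast]
      refine mul_le_mul ?_ (hdom k) (abs_nonneg _) (by positivity)
      exact_mod_cast Nat.factorial_le (Nat.lt_succ_iff.1 (mem_range.1 hk))
    refine (Finset.sum_le_sum h3).trans ?_
    rw [← Finset.mul_sum]
    refine mul_le_mul_of_nonneg_left ?_ (by positivity)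
    rw [eval_eq_sum_range' (n := max ((n + 1) * N + 1) ((fP n N i).natDegree + 1))
      (lt_of_lt_of_le (Nat.lt_succ_self _) (le_max_right _ _))]
    simp only [one_pow, mul_one]
    exact Finset.sum_le_sum_of_subset_of_nonneg
      (Finset.range_subset_range.2 (le_max_left _ _)) fun k _ _ => hdom.nonneg k
  have h4 : |((eval 0 (sumIDeriv (fp n N i)) : ℤ) : ℝ)| ≤
      (((n + 1) * N)! : ℕ) * (((fP n N i).eval 1 : ℤ) : ℝ) := by
    rw [← Int.cast_abs]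
    exact_mod_cast h2
  exact h4.trans (mul_le_mul_of_nonneg_left (fP_eval n N i) (by positivity))

/-- The approximation to the powers of `e`. -/
theorem approx (n N : ℕ) (i k : Fin (n + 1)) :
    |((eval 0 (sumIDeriv (fp n N i)) : ℤ) : ℝ) * Real.exp 1 ^ (k : ℕ) -
      ((eval ((k : ℕ) : ℤ) (sumIDeriv (fp n N i)) : ℤ) : ℝ)| ≤
      Real.exp 1 ^ n * (n + 1) * (((n : ℝ) + 1) ^ (n + 1)) ^ N := by
  set f : ℂ[X] := (fp n N i).map (Int.castRingHom ℂ) with hf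
  have h0 : ∀ z : ℤ, eval ((z : ℤ) : ℂ) (sumIDeriv f) = ((eval z (sumIDeriv (fp n N i)) : ℤ) : ℂ) := by
    intro z
    rw [hf, sumIDeriv_map, eval_intCast_map]
    rfl
  have h1 := LindemannWeierstrass.integral_exp_mul_eval f ((k : ℕ) : ℂ)
  have h2 : ((((eval 0 (sumIDeriv (fp n N i)) : ℤ) : ℝ) * Real.exp 1 ^ (k : ℕ) -
      ((eval ((k : ℕ) : ℤ) (sumIDeriv (fp n N i)) : ℤ) : ℝ) : ℝ) : ℂ) =
      Complex.exp ((k : ℕ) : ℂ) * (((k : ℕ) : ℂ) *
        ∫ x in (0 : ℝ)..1, Complex.exp (-(x • ((k : ℕ) : ℂ))) * f.eval (x • ((k : ℕ) : ℂ))) := by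
    rw [h1]
    have h3 := h0 0
    have h4 := h0 (k : ℕ)
    rw [Int.cast_zero] at h3
    rw [Int.cast_natCast] at h4
    rw [h3, h4, mul_add, mul_neg, ← mul_assoc, ← Complex.exp_add, add_neg_cancel, Complex.exp_zero,
      one_mul]
    push_cast
    rw [← Complex.exp_nat_mul, mul_one]
    ring
  have hk : ((k : ℕ) : ℝ) ≤ n := by exact_mod_cast Nat.lt_succ_iff.1 k.2
  have h3 : ‖∫ x in (0 : ℝ)..1, Complex.exp (-(x • ((k : ℕ) : ℂ))) *
      f.eval (x • ((k : ℕ) : ℂ))‖ ≤ (((n : ℝ) + 1) ^ (n + 1)) ^ N * |1 - 0| := by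
    refine intervalIntegral.norm_integral_le_of_norm_le_const fun x hx => ?_
    rw [Set.uIoc_of_le zero_le_one] at hx
    rw [norm_mul, Complex.norm_exp]
    have hx0 : 0 ≤ x * (k : ℕ) := mul_nonneg hx.1.le (Nat.cast_nonneg _)
    have hx1 : x * (k : ℕ) ≤ n := by
      calc x * (k : ℕ) ≤ 1 * (k : ℕ) := mul_le_mul_of_nonneg_right hx.2 (Nat.cast_nonneg _)
        _ ≤ n := by rw [one_mul]; exact hk
    have e1 : Real.exp (-(x • ((k : ℕ) : ℂ))).re ≤ 1 := by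
      rw [Real.exp_le_one_iff]
      simp only [Complex.real_smul, Complex.neg_re, Complex.mul_re, Complex.ofReal_re,
        Complex.natCast_re, Complex.ofReal_im, Complex.natCast_im, mul_zero, sub_zero]
      linarith
    have e2 : f.eval (x • ((k : ℕ) : ℂ)) = ((x * (k : ℕ) - (i : ℕ) : ℝ) : ℂ) ^ (N - 1) *
        ∏ j ∈ univ.erase i, ((x * (k : ℕ) - (j : ℕ) : ℝ) : ℂ) ^ N := by
      rw [hf, fp, Polynomial.map_mul, Polynomial.map_prod, eval_mul, eval_prod]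
      simp
    have e3 : ‖f.eval (x • ((k : ℕ) : ℂ))‖ ≤ (((n : ℝ) + 1) ^ (n + 1)) ^ N := by
      rw [e2, norm_mul, norm_prod]
      simp only [norm_pow, Complex.norm_real]
      refine prod_bound i (fun j : Fin (n + 1) => ‖x * (k : ℕ) - (j : ℕ)‖)
        (fun j => norm_nonneg _) fun j => ?_
      have hj : ((j : ℕ) : ℝ) ≤ n := by exact_mod_cast Nat.lt_succ_iff.1 j.2
      have hj0 : (0 : ℝ) ≤ ((j : ℕ) : ℝ) := Nat.cast_nonneg _
      rw [Real.norm_eq_abs, abs_le]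
      constructor <;> linarith
    calc _ ≤ 1 * (((n : ℝ) + 1) ^ (n + 1)) ^ N :=
          mul_le_mul e1 e3 (norm_nonneg _) zero_le_one
      _ = _ := one_mul _
  rw [sub_zero, abs_one, mul_one] at h3
  rw [← Real.norm_eq_abs, ← Complex.norm_real, h2, norm_mul, norm_mul, Complex.norm_natCast, Complex.norm_exp,
    Complex.natCast_re, mul_assoc]
  have e1 : Real.exp ((k : ℕ) : ℝ) ≤ Real.exp 1 ^ n := by
    rw [← Real.exp_nat_mul, mul_one]
    exact Real.exp_le_exp.2 hk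
  refine mul_le_mul e1 (mul_le_mul (by linarith) h3 (norm_nonneg _) (by positivity))
    (by positivity) (by positivity)

theorem key (n N : ℕ) (hN : 2 ≤ N) (hmod : N ≡ 1 [MOD n !]) (a : Fin (n + 1) → ℤ) (ha : a ≠ 0)
    (H : ℝ) (hH : ∀ k, |((a k : ℤ) : ℝ)| ≤ H)
    (hbig : 2 * ((n : ℝ) + 1) ^ 2 * Real.exp 1 ^ n * H * (((n : ℝ) + 1) ^ (n + 1)) ^ N ≤
      ((N - 1)! : ℕ)) :
    (((N - 1)! : ℕ) : ℝ) ≤ 2 * (((n + 1) * N)! : ℕ) * (((n : ℝ) + 1) ^ (n + 1)) ^ N *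
      |∑ k : Fin (n + 1), ((a k : ℤ) : ℝ) * Real.exp 1 ^ (k : ℕ)| := by
  obtain ⟨M, hM, hMF⟩ := exists_matrix n N hN hmod
  have h1 : M.mulVec a ≠ 0 := fun h => ha (Matrix.eq_zero_of_mulVec_eq_zero hM h)
  obtain ⟨i, hi⟩ : ∃ i, M.mulVec a i ≠ 0 := by
    by_contra hc
    push Not at hc
    exact h1 (funext hc)
  set B : ℝ := (((n : ℝ) + 1) ^ (n + 1)) ^ N with hB
  set L : ℝ := ∑ k : Fin (n + 1), ((a k : ℤ) : ℝ) * Real.exp 1 ^ (k : ℕ) with hL
  set F0 : ℝ := ((eval 0 (sumIDeriv (fp n N i)) : ℤ) : ℝ) with hF0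
  have h2 : ((N - 1)! : ℕ) ≤ |∑ k : Fin (n + 1), ((a k : ℤ) : ℝ) *
      ((eval ((k : ℕ) : ℤ) (sumIDeriv (fp n N i)) : ℤ) : ℝ)| := by
    have h3 : ∑ k : Fin (n + 1), ((a k : ℤ) : ℝ) *
        ((eval ((k : ℕ) : ℤ) (sumIDeriv (fp n N i)) : ℤ) : ℝ) =
        ((N - 1)! : ℕ) * ((M.mulVec a i : ℤ) : ℝ) := by
      simp only [hMF, Matrix.mulVec, dotProduct]
      push_cast
      rw [Finset.mul_sum]
      exact Finset.sum_congr rfl fun k _ => by ring
    rw [h3, abs_mul, Nat.abs_cast]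
    refine le_mul_of_one_le_right (by positivity) ?_
    have : (1 : ℤ) ≤ |M.mulVec a i| := Int.one_le_abs hi
    exact_mod_cast this
  have h4 : F0 * L = (∑ k : Fin (n + 1), ((a k : ℤ) : ℝ) *
      ((eval ((k : ℕ) : ℤ) (sumIDeriv (fp n N i)) : ℤ) : ℝ)) +
      ∑ k : Fin (n + 1), ((a k : ℤ) : ℝ) * (F0 * Real.exp 1 ^ (k : ℕ) -
        ((eval ((k : ℕ) : ℤ) (sumIDeriv (fp n N i)) : ℤ) : ℝ)) := by
    rw [← Finset.sum_add_distrib, hL, Finset.mul_sum]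
    exact Finset.sum_congr rfl fun k _ => by ring
  have hB0 : 0 ≤ B := by positivity
  have hH0 : 0 ≤ H := (abs_nonneg _).trans (hH i)
  have h5 : |∑ k : Fin (n + 1), ((a k : ℤ) : ℝ) * (F0 * Real.exp 1 ^ (k : ℕ) -
      ((eval ((k : ℕ) : ℤ) (sumIDeriv (fp n N i)) : ℤ) : ℝ))| ≤
      ((n : ℝ) + 1) * (H * (Real.exp 1 ^ n * (n + 1) * B)) := by
    refine (Finset.abs_sum_le_sum_abs _ _).trans ?_
    have h6 : ∀ k ∈ (univ : Finset (Fin (n + 1))), |((a k : ℤ) : ℝ) *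
        (F0 * Real.exp 1 ^ (k : ℕ) -
          ((eval ((k : ℕ) : ℤ) (sumIDeriv (fp n N i)) : ℤ) : ℝ))| ≤
        H * (Real.exp 1 ^ n * (n + 1) * B) := by
      intro k _
      rw [abs_mul]
      exact mul_le_mul (hH k) (approx n N i k) (abs_nonneg _) hH0
    refine (Finset.sum_le_card_nsmul _ _ _ h6).trans (le_of_eq ?_)
    rw [card_univ, Fintype.card_fin, nsmul_eq_mul]
    push_cast
    ring
  have h7 := F_zero_bound n N (by omega) i
  rw [← hF0] at h7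
  have h8 : (((N - 1)! : ℕ) : ℝ) ≤ |F0| * |L| + ((n : ℝ) + 1) * (H * (Real.exp 1 ^ n * (n + 1) * B)) := by
    rw [← abs_mul, h4]
    set A1 := ∑ k : Fin (n + 1), ((a k : ℤ) : ℝ) *
      ((eval ((k : ℕ) : ℤ) (sumIDeriv (fp n N i)) : ℤ) : ℝ)
    set A2 := ∑ k : Fin (n + 1), ((a k : ℤ) : ℝ) * (F0 * Real.exp 1 ^ (k : ℕ) -
        ((eval ((k : ℕ) : ℤ) (sumIDeriv (fp n N i)) : ℤ) : ℝ))
    have h9 : |A1| ≤ |A1 + A2| + |A2| := by
      have := abs_sub (A1 + A2) A2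
      rwa [add_sub_cancel_right] at this
    linarith
  have h9 : |F0| * |L| ≤ (((n + 1) * N)! : ℕ) * B * |L| :=
    mul_le_mul_of_nonneg_right h7 (abs_nonneg _)
  have h10 : ((n : ℝ) + 1) * (H * (Real.exp 1 ^ n * (n + 1) * B)) ≤ (((N - 1)! : ℕ) : ℝ) / 2 := by
    rw [le_div_iff₀ (by norm_num)]
    refine le_trans (le_of_eq ?_) hbig
    ring
  linarith

/-- A transcendence measure of `e`: Mahler's exponent. -/
theorem e_measure (n : ℕ) (ε : ℝ) (hε : 0 < ε) :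
    ∃ c : ℝ, 0 < c ∧ ∀ a : Fin (n + 1) → ℤ, a ≠ 0 → ∀ H : ℝ, (∀ k, |((a k : ℤ) : ℝ)| ≤ H) →
      c * H ^ (-((n : ℝ) + ε)) ≤ |∑ k : Fin (n + 1), ((a k : ℤ) : ℝ) * Real.exp 1 ^ (k : ℕ)| := by
  have hn : (1 : ℝ) ≤ (n : ℝ) + 1 := by have : (0 : ℝ) ≤ n := n.cast_nonneg; linarith
  have he : (1 : ℝ) ≤ Real.exp 1 ^ n := one_le_pow₀ (Real.one_le_exp zero_le_one)
  have hK : (1 : ℝ) ≤ 2 * ((n : ℝ) + 1) ^ 2 * Real.exp 1 ^ n := by
    have h1 : (1 : ℝ) ≤ ((n : ℝ) + 1) ^ 2 := one_le_pow₀ hn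
    have h2 : (1 : ℝ) ≤ 2 * ((n : ℝ) + 1) ^ 2 := by linarith
    exact one_le_mul_of_one_le_of_one_le h2 he
  obtain ⟨c, hc, h⟩ := growth n (n !) (Nat.one_le_iff_ne_zero.2 (Nat.factorial_ne_zero n))
    (2 * ((n : ℝ) + 1) ^ 2 * Real.exp 1 ^ n) (((n : ℝ) + 1) ^ (n + 1)) ε hK (one_le_pow₀ hn) hε
  refine ⟨c, hc, fun a ha H hH => ?_⟩
  have hH1 : 1 ≤ H := by
    obtain ⟨k, hk⟩ : ∃ k, a k ≠ 0 := by
      by_contra hcc
      push Not at hcc
      exact ha (funext hcc)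
    refine le_trans ?_ (hH k)
    have : (1 : ℤ) ≤ |a k| := Int.one_le_abs hk
    exact_mod_cast this
  refine h H hH1 _ (abs_nonneg _) fun m hm hbig => ?_
  have hfac : 1 ≤ n ! := Nat.one_le_iff_ne_zero.2 (Nat.factorial_ne_zero n)
  have hmn : 1 ≤ m * n ! := Nat.mul_pos hm hfac
  have h1 := key n (1 + m * n !) (by omega) (by
    show (1 + m * (n !)) % (n !) = 1 % (n !)
    rw [Nat.add_mul_mod_self_right]) a ha H hH (by rw [Nat.add_sub_cancel_left]; exact hbig)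
  rw [Nat.add_sub_cancel_left] at h1
  exact h1

/-- The same for polynomials. -/
theorem e_measure_poly (n : ℕ) (ε : ℝ) (hε : 0 < ε) :
    ∃ c : ℝ, 0 < c ∧ ∀ P : ℤ[X], P ≠ 0 → P.natDegree ≤ n → ∀ H : ℝ,
      (∀ k, |((P.coeff k : ℤ) : ℝ)| ≤ H) → c * H ^ (-((n : ℝ) + ε)) ≤ |aeval (Real.exp 1) P| := by
  obtain ⟨c, hc, h⟩ := e_measure n ε hε
  refine ⟨c, hc, fun P hP hd H hH => ?_⟩
  have h1 := h (fun k => P.coeff k) (fun h0 => hP (Polynomial.ext fun i => ?_)) H (fun k => hH k)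
  · refine h1.trans (le_of_eq ?_)
    rw [aeval_eq_sum_range' (Nat.lt_succ_of_le hd), ← Fin.sum_univ_eq_sum_range
      (fun i => P.coeff i • Real.exp 1 ^ i) (n + 1)]
    congr 1
    exact Finset.sum_congr rfl fun k _ => (zsmul_eq_mul _ _).symm
  · rcases Nat.lt_or_ge n i with hi | hi
    · rw [coeff_eq_zero_of_natDegree_lt (lt_of_le_of_lt hd hi), coeff_zero]
    · exact congrFun h0 ⟨i, Nat.lt_succ_of_le hi⟩

end Pool.Agent.EMeas
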