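import Mathlib
import Pool.Agent.EMeas.Measure

/-!
# Measures for eigenvalues of matrices with entries in `ℤ[e]`
-/

set_option autoImplicit false

namespace Pool.Agent.EMeas

open Polynomial Finset
open scoped Nat

theorem Dom.sum {ι : Type} (s : Finset ι) (p P : ι → ℤ[X]) (h : ∀ i ∈ s, Dom (p i) (P i)) :
    Dom (∑ i ∈ s, p i) (∑ i ∈ s, P i) := by
  intro k
  rw [finsetSum_coeff, finsetSum_coeff]
  exact (Finset.abs_sum_le_sum_abs _ _).trans (Finset.sum_le_sum fun i hi => h i hi k)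

theorem Dom.sign {p P : ℤ[X]} (h : Dom p P) (u : ℤˣ) : Dom (u • p) P := by
  intro k
  rw [coeff_smul]
  rcases Int.units_eq_one_or u with hu | hu
  · rw [hu, one_smul]; exact h k
  · rw [hu, Units.neg_smul, one_smul, abs_neg]; exact h k

theorem Dom.le_eval {p P : ℤ[X]} (h : Dom p P) (k : ℕ) : |p.coeff k| ≤ P.eval 1 := by
  refine (h k).trans ?_
  rw [eval_eq_sum_range' (n := max (k + 1) (P.natDegree + 1))
    (lt_of_lt_of_le (Nat.lt_succ_self _) (le_max_right _ _))]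
  simp only [one_pow, mul_one]
  exact Finset.single_le_sum (f := fun i => P.coeff i) (fun i _ => h.nonneg i)
    (Finset.mem_range.2 (lt_of_lt_of_le (Nat.lt_succ_self _) (le_max_left _ _)))

variable {ι : Type} [Fintype ι] [DecidableEq ι]

theorem natDegree_det (B : Matrix ι ι ℤ[X]) (m : ℕ) (hm : ∀ i j, (B i j).natDegree ≤ m) :
    B.det.natDegree ≤ Fintype.card ι * m := by
  rw [Matrix.det_apply]
  refine natDegree_sum_le_of_forall_le _ _ fun σ _ => ?_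
  refine (natDegree_smul_le _ _).trans ((natDegree_prod_le _ _).trans ?_)
  refine (Finset.sum_le_card_nsmul _ _ m fun i _ => hm _ _).trans ?_
  rw [card_univ, smul_eq_mul]

theorem coeff_det_bound (B : Matrix ι ι ℤ[X]) (m : ℕ) (T : ℤ) (hm : ∀ i j, (B i j).natDegree ≤ m)
    (hT : ∀ i j k, |(B i j).coeff k| ≤ T) (k : ℕ) :
    |B.det.coeff k| ≤ (Fintype.card ι)! * (T * (m + 1)) ^ Fintype.card ι := by
  set E : ℤ[X] := C T * ∑ l ∈ range (m + 1), X ^ l with hE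
  have hEc : ∀ l, E.coeff l = if l ≤ m then T else 0 := by
    intro l
    rw [hE, coeff_C_mul, finsetSum_coeff]
    simp only [coeff_X_pow]
    rw [Finset.sum_ite_eq]
    simp only [Finset.mem_range, Nat.lt_succ_iff]
    split_ifs <;> simp
  have h1 : ∀ i j, Dom (B i j) E := by
    intro i j l
    rw [hEc]
    split_ifs with h
    · exact hT i j l
    · rw [coeff_eq_zero_of_natDegree_lt (lt_of_le_of_lt (hm i j) (not_le.1 h)), abs_zero]
  have h2 : Dom B.det (∑ _σ : Equiv.Perm ι, ∏ _i : ι, E) := by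
    rw [Matrix.det_apply]
    exact Dom.sum _ _ _ fun σ _ => (Dom.prod _ _ _ fun i _ => h1 _ _).sign _
  refine (h2.le_eval k).trans (le_of_eq ?_)
  rw [Finset.sum_const, card_univ, Fintype.card_perm, nsmul_eq_mul, eval_mul, eval_natCast,
    Finset.prod_const, card_univ, eval_pow]
  congr 2
  rw [hE, eval_mul, eval_C, eval_finsetSum]
  simp

theorem coeff_det_top (B : Matrix ι ι ℤ[X]) (m : ℕ) (hm : ∀ i j, (B i j).natDegree ≤ m) :
    B.det.coeff (Fintype.card ι * m) = (Matrix.of fun i j => (B i j).coeff m).det := by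
  rw [Matrix.det_apply, Matrix.det_apply, finsetSum_coeff]
  refine Finset.sum_congr rfl fun σ _ => ?_
  rw [coeff_smul]
  congr 1
  exact coeff_prod_of_natDegree_le (s := univ) (fun i => B (σ i) i) m fun i _ => hm _ _

/-- The value of a polynomial matrix at `e`. -/
noncomputable def atE (B : Matrix ι ι ℤ[X]) : Matrix ι ι ℂ :=
  B.map fun p => aeval ((Real.exp 1 : ℝ) : ℂ) p

theorem det_atE (B : Matrix ι ι ℤ[X]) : (atE B).det = ((aeval (Real.exp 1) B.det : ℝ) : ℂ) := by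
  have h1 : (atE B).det = aeval ((Real.exp 1 : ℝ) : ℂ) B.det := by
    have := (AlgHom.map_det (aeval ((Real.exp 1 : ℝ) : ℂ) : ℤ[X] →ₐ[ℤ] ℂ) B).symm
    exact this
  rw [h1]
  have h2 := aeval_algebraMap_apply ℂ (Real.exp 1) B.det
  simpa using h2

theorem det_norm_le (A : Matrix ι ι ℂ) (S : ℝ) (hA : ∀ i j, ‖A i j‖ ≤ S) :
    ‖A.det‖ ≤ (Fintype.card ι)! * S ^ Fintype.card ι := by
  have h1 := Matrix.det_le (A := A) (abv := (NormedField.toAbsoluteValue ℂ : AbsoluteValue ℂ ℝ))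
    (x := S) fun i j => hA i j
  rw [nsmul_eq_mul] at h1
  exact h1

theorem adj_bound (A : Matrix ι ι ℂ) (S : ℝ) (hS : 1 ≤ S) (hA : ∀ i j, ‖A i j‖ ≤ S) (i j : ι) :
    ‖A.adjugate i j‖ ≤ (Fintype.card ι)! * S ^ (Fintype.card ι - 1) := by
  have hpos : 0 < Fintype.card ι := Fintype.card_pos_iff.2 ⟨i⟩
  have hS0 : (S : ℂ) ≠ 0 := by exact_mod_cast (by linarith : S ≠ 0)
  obtain ⟨w, hw⟩ : ∃ w : ι → ℂ, w = Pi.single i (S : ℂ) := ⟨_, rfl⟩
  have hw1 : (Pi.single i (1 : ℂ) : ι → ℂ) = (S : ℂ)⁻¹ • w := by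
    rw [hw]
    funext k
    by_cases h : k = i
    · subst h
      simp [hS0]
    · simp [h]
  have hwS : ∀ k, ‖w k‖ ≤ S := by
    intro k
    rw [hw]
    by_cases h : k = i
    · subst h
      rw [Pi.single_eq_same, Complex.norm_real, Real.norm_of_nonneg (by linarith)]
    · rw [Pi.single_eq_of_ne h, norm_zero]
      linarith
  have h3 : ∀ a b, ‖(A.updateRow j w) a b‖ ≤ S := by
    intro a b
    by_cases h : a = j
    · rw [h, Matrix.updateRow_self]; exact hwS b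
    · rw [Matrix.updateRow_ne h]; exact hA a b
  have h2 := det_norm_le _ S h3
  have h1 : A.adjugate i j = (S : ℂ)⁻¹ * (A.updateRow j w).det := by
    rw [Matrix.adjugate_apply, hw1, Matrix.det_updateRow_smul]
  have h4 : ‖(S : ℂ)⁻¹‖ = S⁻¹ := by
    rw [norm_inv, Complex.norm_real, Real.norm_of_nonneg (by linarith)]
  rw [h1, norm_mul, h4]
  have h5 : S⁻¹ * ((Fintype.card ι)! * S ^ Fintype.card ι : ℝ) =
      (Fintype.card ι)! * S ^ (Fintype.card ι - 1) := by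
    obtain ⟨d, hd⟩ : ∃ d, Fintype.card ι = d + 1 := ⟨Fintype.card ι - 1, by omega⟩
    rw [hd, Nat.add_sub_cancel, pow_succ]
    field_simp
  rw [← h5]
  exact mul_le_mul_of_nonneg_left h2 (by positivity)

theorem det_le_eigen (A : Matrix ι ι ℂ) (S : ℝ) (hS : 1 ≤ S) (hA : ∀ i j, ‖A i j‖ ≤ S)
    (v : ι → ℂ) (hv : v ≠ 0) (z : ℂ) (hz : A.mulVec v = z • v) :
    ‖A.det‖ ≤ (Fintype.card ι) * ((Fintype.card ι)! * S ^ (Fintype.card ι - 1)) * ‖z‖ := by
  obtain ⟨i0, hi0⟩ : ∃ i, v i ≠ 0 := by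
    by_contra hc
    push Not at hc
    exact hv (funext hc)
  have hne : (univ : Finset ι).Nonempty := ⟨i0, mem_univ _⟩
  obtain ⟨i, _, hi⟩ := Finset.exists_max_image univ (fun i => ‖v i‖) hne
  have hvi : 0 < ‖v i‖ := (norm_pos_iff.2 hi0).trans_le (hi i0 (mem_univ _))
  have h1 : A.det • v = z • A.adjugate.mulVec v := by
    rw [← Matrix.mulVec_smul, ← hz, Matrix.mulVec_mulVec, Matrix.adjugate_mul, Matrix.smul_mulVec,
      Matrix.one_mulVec]
  have h2 := congrArg norm (congrFun h1 i)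
  rw [Pi.smul_apply, Pi.smul_apply, norm_smul, norm_smul] at h2
  have h3 : ‖A.adjugate.mulVec v i‖ ≤ (Fintype.card ι) *
      ((Fintype.card ι)! * S ^ (Fintype.card ι - 1)) * ‖v i‖ := by
    have h4 : A.adjugate.mulVec v i = ∑ j, A.adjugate i j * v j := rfl
    rw [h4]
    refine (norm_sum_le _ _).trans ((Finset.sum_le_card_nsmul _ _
      (((Fintype.card ι)! * S ^ (Fintype.card ι - 1)) * ‖v i‖) fun j _ => ?_).trans (le_of_eq ?_))
    · rw [norm_mul]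
      exact mul_le_mul (adj_bound A S hS hA i j) (hi j (mem_univ _)) (norm_nonneg _)
        (by positivity)
    · rw [card_univ, nsmul_eq_mul]; ring
  have h5 : ‖A.det‖ * ‖v i‖ ≤ ((Fintype.card ι) *
      ((Fintype.card ι)! * S ^ (Fintype.card ι - 1)) * ‖z‖) * ‖v i‖ := by
    rw [h2]
    calc ‖z‖ * ‖A.adjugate.mulVec v i‖ ≤ ‖z‖ * ((Fintype.card ι) *
          ((Fintype.card ι)! * S ^ (Fintype.card ι - 1)) * ‖v i‖) :=
          mul_le_mul_of_nonneg_left h3 (norm_nonneg _)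
      _ = _ := by ring
  exact le_of_mul_le_mul_right h5 hvi

theorem atE_bound (B : Matrix ι ι ℤ[X]) (m : ℕ) (T : ℤ) (hm : ∀ i j, (B i j).natDegree ≤ m)
    (hT : ∀ i j k, |(B i j).coeff k| ≤ T) (i j : ι) :
    ‖atE B i j‖ ≤ ((m : ℝ) + 1) * Real.exp 1 ^ m * T := by
  have h1 : atE B i j = ∑ k ∈ range (m + 1), (((B i j).coeff k : ℤ) : ℂ) *
      ((Real.exp 1 : ℝ) : ℂ) ^ k := by
    show aeval ((Real.exp 1 : ℝ) : ℂ) (B i j) = _
    rw [aeval_eq_sum_range' (Nat.lt_succ_of_le (hm i j))]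
    exact Finset.sum_congr rfl fun k _ => zsmul_eq_mul _ _
  rw [h1]
  have hT0 : (0 : ℝ) ≤ T := by exact_mod_cast (abs_nonneg _).trans (hT i j 0)
  refine (norm_sum_le _ _).trans ((Finset.sum_le_card_nsmul _ _ (Real.exp 1 ^ m * T)
    fun k hk => ?_).trans (le_of_eq ?_))
  · rw [norm_mul, norm_pow, Complex.norm_real, Real.norm_of_nonneg (Real.exp_pos _).le,
      Complex.norm_intCast, mul_comm]
    refine mul_le_mul (pow_le_pow_right₀ (Real.one_le_exp zero_le_one)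
      (Nat.lt_succ_iff.1 (mem_range.1 hk))) ?_ (abs_nonneg _) (by positivity)
    exact_mod_cast hT i j k
  · rw [card_range, nsmul_eq_mul]; push_cast; ring

/-- A measure for the eigenvalues of polynomial matrices at `e`. -/
theorem mat_measure_aux (D m : ℕ) (hD : 1 ≤ D) (ε : ℝ) (hε : 0 < ε) :
    ∃ c : ℝ, 0 < c ∧ ∀ (ι : Type) [Fintype ι] [DecidableEq ι], Fintype.card ι = D →
      ∀ (B : Matrix ι ι ℤ[X]) (T : ℤ), B.det ≠ 0 → 1 ≤ T → (∀ i j, (B i j).natDegree ≤ m) →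
      (∀ i j k, |(B i j).coeff k| ≤ T) → ∀ (v : ι → ℂ) (z : ℂ), v ≠ 0 →
      (atE B).mulVec v = z • v →
      c * (T : ℝ) ^ (-((m : ℝ) * D ^ 2 + D - 1 + ε)) ≤ ‖z‖ := by
  have hDr : (1 : ℝ) ≤ D := by exact_mod_cast hD
  obtain ⟨c0, hc0, h0⟩ := e_measure_poly (D * m) (ε / D) (by positivity)
  set κ : ℝ := ((D * m : ℕ) : ℝ) + ε / D with hκ
  set C1 : ℝ := (D ! : ℕ) * ((m : ℝ) + 1) ^ D with hC1
  set S0 : ℝ := ((m : ℝ) + 1) * Real.exp 1 ^ m with hS0
  set C2 : ℝ := (D : ℝ) * ((D ! : ℕ) * S0 ^ (D - 1)) with hC2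
  have hC1p : 0 < C1 := by positivity
  have hS0p : 0 < S0 := by positivity
  have hS01 : 1 ≤ S0 := by
    refine one_le_mul_of_one_le_of_one_le ?_ (one_le_pow₀ (Real.one_le_exp zero_le_one))
    have : (0 : ℝ) ≤ m := m.cast_nonneg
    linarith
  have hC2p : 0 < C2 := by positivity
  refine ⟨c0 * C1 ^ (-κ) / C2, by positivity, ?_⟩
  intro ι _ _ hcard B T hdet hT1 hm hT v z hv hz
  have hTr : (1 : ℝ) ≤ T := by exact_mod_cast hT1
  have hTp : (0 : ℝ) < T := by linarith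
  have h1 : c0 * (C1 * (T : ℝ) ^ D) ^ (-κ) ≤ |aeval (Real.exp 1) B.det| := by
    refine h0 B.det hdet ?_ _ fun k => ?_
    · have := natDegree_det B m hm
      rwa [hcard] at this
    · have h2 := coeff_det_bound B m T hm hT k
      rw [hcard] at h2
      have h3 : ((|B.det.coeff k| : ℤ) : ℝ) ≤ (((D ! : ℕ) * (T * (m + 1)) ^ D : ℤ) : ℝ) := by
        exact_mod_cast h2
      rw [Int.cast_abs] at h3
      refine h3.trans (le_of_eq ?_)
      push_cast
      rw [hC1, mul_pow]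
      ring
  have h2 := det_le_eigen (atE B) (S0 * T) (one_le_mul_of_one_le_of_one_le hS01 hTr)
    (fun i j => atE_bound B m T hm hT i j) v hv z hz
  rw [hcard, det_atE, Complex.norm_real, Real.norm_eq_abs] at h2
  have h3 : c0 * (C1 * (T : ℝ) ^ D) ^ (-κ) ≤ C2 * (T : ℝ) ^ (D - 1) * ‖z‖ := by
    refine h1.trans (h2.trans (le_of_eq ?_))
    rw [hC2, mul_pow]
    ring
  have h4 : (C1 * (T : ℝ) ^ D) ^ (-κ) = C1 ^ (-κ) * (T : ℝ) ^ (-((m : ℝ) * D ^ 2 + ε)) := by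
    rw [Real.mul_rpow hC1p.le (by positivity), ← Real.rpow_natCast, ← Real.rpow_mul hTp.le]
    congr 2
    rw [hκ]
    push_cast
    field_simp
  have h5 : (T : ℝ) ^ (-((m : ℝ) * D ^ 2 + D - 1 + ε)) * (T : ℝ) ^ (D - 1) =
      (T : ℝ) ^ (-((m : ℝ) * D ^ 2 + ε)) := by
    rw [← Real.rpow_natCast (T : ℝ) (D - 1), ← Real.rpow_add hTp]
    congr 1
    rw [Nat.cast_sub hD]
    push_cast
    ring
  have hTd : 0 < (T : ℝ) ^ (D - 1) := by positivity
  rw [h4, ← h5] at h3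
  have h6 : (c0 * C1 ^ (-κ) / C2 * (T : ℝ) ^ (-((m : ℝ) * D ^ 2 + D - 1 + ε))) *
      (C2 * (T : ℝ) ^ (D - 1)) ≤ ‖z‖ * (C2 * (T : ℝ) ^ (D - 1)) := by
    calc _ = c0 * (C1 ^ (-κ) * ((T : ℝ) ^ (-((m : ℝ) * D ^ 2 + D - 1 + ε)) *
          (T : ℝ) ^ (D - 1))) := by field_simp
      _ ≤ C2 * (T : ℝ) ^ (D - 1) * ‖z‖ := h3
      _ = _ := by ring
  exact le_of_mul_le_mul_right h6 (by positivity)

/-- The version with a real bound for the coefficients. -/
theorem mat_measure (D m : ℕ) (hD : 1 ≤ D) (ε : ℝ) (hε : 0 < ε) :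
    ∃ c : ℝ, 0 < c ∧ ∀ (ι : Type) [Fintype ι] [DecidableEq ι], Fintype.card ι = D →
      ∀ (B : Matrix ι ι ℤ[X]) (T : ℝ), B.det ≠ 0 → 1 ≤ T → (∀ i j, (B i j).natDegree ≤ m) →
      (∀ i j k, |(((B i j).coeff k : ℤ) : ℝ)| ≤ T) → ∀ (v : ι → ℂ) (z : ℂ), v ≠ 0 →
      (atE B).mulVec v = z • v →
      c * T ^ (-((m : ℝ) * D ^ 2 + D - 1 + ε)) ≤ ‖z‖ := by
  obtain ⟨c, hc, h⟩ := mat_measure_aux D m hD ε hε
  refine ⟨c, hc, ?_⟩
  intro ι _ _ hcard B T hdet hT1 hm hT v z hv hz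
  have h1 : (1 : ℤ) ≤ ⌊T⌋ := Int.le_floor.2 (by exact_mod_cast hT1)
  have h2 := h ι hcard B ⌊T⌋ hdet h1 hm (fun i j k => Int.le_floor.2 (by
    rw [Int.cast_abs]; exact hT i j k)) v z hv hz
  refine le_trans (mul_le_mul_of_nonneg_left ?_ hc.le) h2
  have hDr : (1 : ℝ) ≤ D := by exact_mod_cast hD
  have hm0 : (0 : ℝ) ≤ (m : ℝ) * D ^ 2 := by positivity
  refine Real.rpow_le_rpow_of_nonpos (by exact_mod_cast h1) (Int.floor_le T) ?_
  linarith

end Pool.Agent.EMeas
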