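import Mathlib
import Pool.Agent.EMeas.Mat

/-!
# Companion matrices and eigenvectors
-/

set_option autoImplicit false

namespace Pool.Agent.EMeas

open Polynomial Finset

/-- The companion matrix of `A`, multiplied by the leading coefficient. -/
noncomputable def cmp (A : ℤ[X]) : Matrix (Fin A.natDegree) (Fin A.natDegree) ℤ :=
  Matrix.of fun j i => if (j : ℕ) + 1 = A.natDegree then -A.coeff i else
    if (i : ℕ) = j + 1 then A.leadingCoeff else 0

/-- The eigenvector. -/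
noncomputable def cv (A : ℤ[X]) (α : ℂ) : Fin A.natDegree → ℂ := fun i => α ^ (i : ℕ)

theorem cmp_eig (A : ℤ[X]) (α : ℂ) (h : aeval α A = 0) (j : Fin A.natDegree) :
    ∑ i, ((cmp A j i : ℤ) : ℂ) * cv A α i = ((A.leadingCoeff : ℤ) : ℂ) * α * cv A α j := by
  unfold cmp cv
  simp only [Matrix.of_apply]
  by_cases hj : (j : ℕ) + 1 = A.natDegree
  · simp only [if_pos hj]
    rw [aeval_eq_sum_range, Finset.sum_range_succ,
      ← Fin.sum_univ_eq_sum_range (fun i => A.coeff i • α ^ i) A.natDegree] at h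
    simp only [zsmul_eq_mul] at h
    have h1 : ∑ i : Fin A.natDegree, ((-A.coeff i : ℤ) : ℂ) * α ^ (i : ℕ) =
        -∑ i : Fin A.natDegree, ((A.coeff i : ℤ) : ℂ) * α ^ (i : ℕ) := by
      rw [← Finset.sum_neg_distrib]
      exact Finset.sum_congr rfl fun i _ => by push_cast; ring
    rw [h1]
    have h2 : ((A.leadingCoeff : ℤ) : ℂ) * α * α ^ (j : ℕ) =
        ((A.coeff A.natDegree : ℤ) : ℂ) * α ^ A.natDegree := by
      have h3 : α ^ A.natDegree = α * α ^ (j : ℕ) := by rw [← pow_succ', hj]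
      rw [leadingCoeff, h3]
      ring
    rw [h2]
    linear_combination -h
  · simp only [if_neg hj]
    have hlt : (j : ℕ) + 1 < A.natDegree := by have := j.2; omega
    rw [Finset.sum_eq_single (⟨(j : ℕ) + 1, hlt⟩ : Fin A.natDegree)]
    · simp only [if_true]
      rw [pow_succ]
      ring
    · intro i _ hi
      rw [if_neg fun e => hi (Fin.ext e)]
      simp
    · intro hn
      exact absurd (Finset.mem_univ _) hn

theorem cmp_bound (A : ℤ[X]) (H : ℝ) (hH : ∀ k, |((A.coeff k : ℤ) : ℝ)| ≤ H)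
    (j i : Fin A.natDegree) : |((cmp A j i : ℤ) : ℝ)| ≤ H := by
  unfold cmp
  simp only [Matrix.of_apply]
  split_ifs
  · push_cast
    rw [abs_neg]
    exact hH _
  · exact hH _
  · simp only [Int.cast_zero, abs_zero]
    exact (abs_nonneg _).trans (hH 0)

theorem cv_ne (A : ℤ[X]) (α : ℂ) (hd : 0 < A.natDegree) : cv A α ≠ 0 := by
  intro h
  have := congrFun h ⟨0, hd⟩
  simp [cv] at this

theorem cmp_det (A : ℤ[X]) (hA : A ≠ 0) (hd : 0 < A.natDegree) (h0 : A.coeff 0 ≠ 0) :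
    (cmp A).det ≠ 0 := by
  intro hdet
  obtain ⟨w, hw, hw0⟩ := Matrix.exists_mulVec_eq_zero_iff.2 hdet
  have hrow : ∀ j : Fin A.natDegree, ∑ i, cmp A j i * w i = 0 := fun j => congrFun hw0 j
  have hlc : A.leadingCoeff ≠ 0 := leadingCoeff_ne_zero.2 hA
  have h1 : ∀ i : Fin A.natDegree, 0 < (i : ℕ) → w i = 0 := by
    intro i hi
    have hj : (i : ℕ) - 1 < A.natDegree := by have := i.2; omega
    have h2 := hrow ⟨(i : ℕ) - 1, hj⟩
    unfold cmp at h2
    simp only [Matrix.of_apply] at h2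
    have h3 : ¬ ((i : ℕ) - 1 + 1 = A.natDegree) := by have := i.2; omega
    simp only [if_neg h3] at h2
    rw [Finset.sum_eq_single i] at h2
    · rw [if_pos (by omega)] at h2
      exact (mul_eq_zero.1 h2).resolve_left hlc
    · intro k _ hk
      rw [if_neg fun e => hk (Fin.ext (by omega)), zero_mul]
    · intro hn
      exact absurd (Finset.mem_univ _) hn
  have h2 : w ⟨0, hd⟩ = 0 := by
    have h3 := hrow ⟨A.natDegree - 1, by omega⟩
    unfold cmp at h3
    simp only [Matrix.of_apply] at h3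
    have h4 : A.natDegree - 1 + 1 = A.natDegree := by omega
    simp only [if_pos h4] at h3
    rw [Finset.sum_eq_single (⟨0, hd⟩ : Fin A.natDegree)] at h3
    · rcases mul_eq_zero.1 h3 with h5 | h5
      · exact absurd (neg_eq_zero.1 h5) h0
      · exact h5
    · intro k _ hk
      rw [h1 k (Nat.pos_of_ne_zero fun e => hk (Fin.ext e)), mul_zero]
    · intro hn
      exact absurd (Finset.mem_univ _) hn
  refine hw (funext fun i => ?_)
  rcases Nat.eq_zero_or_pos (i : ℕ) with h3 | h3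
  · have : i = ⟨0, hd⟩ := Fin.ext h3
    rw [this, h2]; rfl
  · rw [h1 i h3]; rfl

/-! ### Homogeneous expressions in two matrices -/

variable {ι : Type} [Fintype ι] [DecidableEq ι]

/-- `∑ p_k U^(κ-k) V^k`. -/
noncomputable def hom (P : ℤ[X]) (U V : Matrix ι ι ℤ[X]) : Matrix ι ι ℤ[X] :=
  ∑ k ∈ range (P.natDegree + 1), (C (P.coeff k) : ℤ[X]) • (U ^ (P.natDegree - k) * V ^ k)

theorem natDegree_mul_entry {M N : Matrix ι ι ℤ[X]} {m n : ℕ} (hM : ∀ i j, (M i j).natDegree ≤ m)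
    (hN : ∀ i j, (N i j).natDegree ≤ n) (i j : ι) : ((M * N) i j).natDegree ≤ m + n := by
  rw [Matrix.mul_apply]
  refine natDegree_sum_le_of_forall_le _ _ fun s _ => ?_
  exact natDegree_mul_le.trans (Nat.add_le_add (hM _ _) (hN _ _))

theorem natDegree_pow_entry {M : Matrix ι ι ℤ[X]} (hM : ∀ i j, (M i j).natDegree ≤ 1) :
    ∀ (k : ℕ) (i j : ι), ((M ^ k) i j).natDegree ≤ k
  | 0, i, j => by
    rw [pow_zero, Matrix.one_apply]
    split_ifs <;> simp
  | k + 1, i, j => by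
    rw [pow_succ]
    exact natDegree_mul_entry (natDegree_pow_entry hM k) hM i j

theorem hom_natDegree (P : ℤ[X]) {U V : Matrix ι ι ℤ[X]} (hU : ∀ i j, (U i j).natDegree ≤ 1)
    (hV : ∀ i j, (V i j).natDegree ≤ 1) (i j : ι) : (hom P U V i j).natDegree ≤ P.natDegree := by
  unfold hom
  rw [Matrix.sum_apply]
  refine natDegree_sum_le_of_forall_le _ _ fun k hk => ?_
  rw [Matrix.smul_apply, smul_eq_mul]
  refine natDegree_mul_le.trans ?_
  rw [natDegree_C, zero_add]
  have h1 := natDegree_mul_entry (natDegree_pow_entry hU (P.natDegree - k))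
    (natDegree_pow_entry hV k) i j
  have := Finset.mem_range.1 hk
  omega

/-- Entrywise domination of products. -/
theorem dom_mul_entry {M N : Matrix ι ι ℤ[X]} {E F : ℤ[X]} (hM : ∀ i j, Dom (M i j) E)
    (hN : ∀ i j, Dom (N i j) F) (i j : ι) :
    Dom ((M * N) i j) ((Fintype.card ι : ℤ[X]) * (E * F)) := by
  rw [Matrix.mul_apply]
  have h1 := Dom.sum univ (fun s => M i s * N s j) (fun _ => E * F)
    (fun s _ => (hM i s).mul (hN s j))
  rwa [Finset.sum_const, card_univ, nsmul_eq_mul] at h1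

theorem dom_pow_entry {M : Matrix ι ι ℤ[X]} {E : ℤ[X]} (hM : ∀ i j, Dom (M i j) E) :
    ∀ (k : ℕ) (i j : ι), Dom ((M ^ k) i j) (((Fintype.card ι : ℤ[X]) * E) ^ k)
  | 0, i, j => by
    rw [pow_zero, pow_zero, Matrix.one_apply]
    split_ifs
    · exact Dom.one
    · intro l
      rw [coeff_zero, abs_zero]
      exact Dom.one.nonneg l
  | k + 1, i, j => by
    rw [pow_succ, pow_succ]
    have h1 := dom_mul_entry (dom_pow_entry hM k) hM i j
    have h2 : ((Fintype.card ι : ℤ[X])) * (((Fintype.card ι : ℤ[X]) * E) ^ k * E) =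
        ((Fintype.card ι : ℤ[X]) * E) ^ k * ((Fintype.card ι : ℤ[X]) * E) := by ring
    rwa [h2] at h1

theorem hom_bound (P : ℤ[X]) {U V : Matrix ι ι ℤ[X]} {E : ℤ[X]} (hU : ∀ i j, Dom (U i j) E)
    (hV : ∀ i j, Dom (V i j) E) {n : ℕ} (hn : P.natDegree ≤ n) (R : ℝ) (hR : 1 ≤ R)
    (hER : ((Fintype.card ι : ℝ)) * ((E.eval 1 : ℤ) : ℝ) ≤ R) (H : ℝ) (hι : 1 ≤ Fintype.card ι)
    (hH : ∀ k, |((P.coeff k : ℤ) : ℝ)| ≤ H) (i j : ι) (l : ℕ) :
    |(((hom P U V i j).coeff l : ℤ) : ℝ)| ≤ ((n : ℝ) + 1) * (Fintype.card ι * R ^ n) * H := by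
  have hH0 : 0 ≤ H := (abs_nonneg _).trans (hH 0)
  have hE0 : 0 ≤ E.eval 1 := (abs_nonneg _).trans ((hU i j).le_eval 0)
  unfold hom
  rw [Matrix.sum_apply, finsetSum_coeff]
  push_cast
  refine (Finset.abs_sum_le_sum_abs _ _).trans ?_
  have h1 : ∀ k ∈ range (P.natDegree + 1),
      |((((C (P.coeff k) : ℤ[X]) • (U ^ (P.natDegree - k) * V ^ k)) i j).coeff l : ℝ)| ≤
        (Fintype.card ι * R ^ n) * H := by
    intro k hk
    have hk' : k ≤ P.natDegree := Nat.lt_succ_iff.1 (Finset.mem_range.1 hk)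
    rw [Matrix.smul_apply, smul_eq_mul, coeff_C_mul]
    push_cast
    rw [abs_mul, mul_comm]
    refine mul_le_mul ?_ (hH k) (abs_nonneg _) (by positivity)
    have h2 := (dom_mul_entry (dom_pow_entry hU (P.natDegree - k)) (dom_pow_entry hV k) i j).le_eval l
    rw [eval_mul, eval_mul, eval_pow, eval_pow, eval_mul, eval_natCast, ← pow_add,
      Nat.sub_add_cancel hk'] at h2
    have h3 : (((|((U ^ (P.natDegree - k) * V ^ k) i j).coeff l| : ℤ)) : ℝ) ≤
        (((Fintype.card ι : ℤ) * (((Fintype.card ι : ℤ) * E.eval 1) ^ P.natDegree) : ℤ) : ℝ) := by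
      exact_mod_cast h2
    rw [Int.cast_abs] at h3
    refine h3.trans ?_
    push_cast
    refine mul_le_mul_of_nonneg_left ?_ (by positivity)
    have h4 : (0 : ℝ) ≤ (Fintype.card ι : ℝ) * ((E.eval 1 : ℤ) : ℝ) :=
      mul_nonneg (by positivity) (by exact_mod_cast hE0)
    exact (pow_le_pow_left₀ h4 hER _).trans (pow_le_pow_right₀ hR hn)
  refine (Finset.sum_le_sum h1).trans ?_
  rw [Finset.sum_const, card_range, nsmul_eq_mul]
  push_cast
  have h2 : ((P.natDegree : ℝ) + 1) ≤ (n : ℝ) + 1 := by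
    have : (P.natDegree : ℝ) ≤ n := by exact_mod_cast hn
    linarith
  calc ((P.natDegree : ℝ) + 1) * (Fintype.card ι * R ^ n * H) ≤
        ((n : ℝ) + 1) * (Fintype.card ι * R ^ n * H) := mul_le_mul_of_nonneg_right h2 (by positivity)
    _ = _ := by ring

/-- The evaluation at `e` as a ring homomorphism. -/
noncomputable def evE : ℤ[X] →+* ℂ := (aeval ((Real.exp 1 : ℝ) : ℂ) : ℤ[X] →ₐ[ℤ] ℂ).toRingHom

theorem atE_eq (B : Matrix ι ι ℤ[X]) : atE B = evE.mapMatrix B := rfl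

theorem pow_eig {M : Matrix ι ι ℂ} {v : ι → ℂ} {z : ℂ} (h : M.mulVec v = z • v) :
    ∀ k : ℕ, (M ^ k).mulVec v = z ^ k • v
  | 0 => by rw [pow_zero, pow_zero, Matrix.one_mulVec, one_smul]
  | k + 1 => by
    rw [pow_succ, ← Matrix.mulVec_mulVec, h, Matrix.mulVec_smul, pow_eig h k, smul_smul, pow_succ]
    congr 1
    ring

theorem hom_eig (P : ℤ[X]) {U V : Matrix ι ι ℤ[X]} {v : ι → ℂ} {u w : ℂ}
    (hU : (atE U).mulVec v = u • v) (hV : (atE V).mulVec v = w • v) :
    (atE (hom P U V)).mulVec v =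
      (∑ k ∈ range (P.natDegree + 1), ((P.coeff k : ℤ) : ℂ) * (u ^ (P.natDegree - k) * w ^ k)) • v := by
  have h1 : atE (hom P U V) = ∑ k ∈ range (P.natDegree + 1),
      ((P.coeff k : ℤ) : ℂ) • (atE U ^ (P.natDegree - k) * atE V ^ k) := by
    rw [atE_eq, atE_eq, atE_eq, hom, map_sum]
    refine Finset.sum_congr rfl fun k _ => ?_
    rw [← map_pow, ← map_pow, ← map_mul]
    ext i j
    rw [RingHom.mapMatrix_apply, RingHom.mapMatrix_apply, Matrix.map_apply, Matrix.smul_apply,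
      Matrix.smul_apply, Matrix.map_apply, smul_eq_mul, smul_eq_mul, map_mul]
    congr 1
    show aeval ((Real.exp 1 : ℝ) : ℂ) (C (P.coeff k)) = _
    rw [aeval_C]
    simp
  rw [h1, Matrix.sum_mulVec, Finset.sum_smul]
  refine Finset.sum_congr rfl fun k _ => ?_
  rw [Matrix.smul_mulVec, ← Matrix.mulVec_mulVec, pow_eig hV, Matrix.mulVec_smul, pow_eig hU,
    smul_smul, smul_smul]
  congr 1
  ring

/-- A measure for a quotient of eigenvalues. -/
theorem pair_measure (d : ℕ) (hd : 1 ≤ d) (hι : Fintype.card ι = d) (U V : Matrix ι ι ℤ[X])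
    (hU1 : ∀ i j, (U i j).natDegree ≤ 1) (hV1 : ∀ i j, (V i j).natDegree ≤ 1) (v : ι → ℂ)
    (hv : v ≠ 0) (u x : ℂ) (hU : (atE U).mulVec v = u • v)
    (hV : (atE V).mulVec v = (u * x) • v) (hdet : ∀ P : ℤ[X], P ≠ 0 → (hom P U V).det ≠ 0)
    (n : ℕ) (ε : ℝ) (hε : 0 < ε) :
    ∃ c : ℝ, 0 < c ∧ ∀ P : ℤ[X], P ≠ 0 → P.natDegree ≤ n → ∀ H : ℝ,
      (∀ k, |((P.coeff k : ℤ) : ℝ)| ≤ H) →
      c * H ^ (-((n : ℝ) * d ^ 2 + d - 1 + ε)) ≤ ‖aeval x P‖ := by
  obtain ⟨c0, hc0, h0⟩ := mat_measure d n hd ε hε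
  -- a dominating polynomial
  obtain ⟨E, hEU, hEV⟩ : ∃ E : ℤ[X], (∀ i j, Dom (U i j) E) ∧ ∀ i j, Dom (V i j) E := by
    refine ⟨∑ p : ι × ι, ∑ l ∈ range 2, C (|(U p.1 p.2).coeff l| + |(V p.1 p.2).coeff l|) * X ^ l,
      ?_, ?_⟩
    all_goals
      intro i j l
      rw [finsetSum_coeff]
      simp only [finsetSum_coeff, coeff_C_mul, coeff_X_pow, mul_ite, mul_one, mul_zero]
      rcases Nat.lt_or_ge l 2 with hl | hl
      · refine le_trans ?_ (Finset.single_le_sum (f := fun p : ι × ι => ∑ b ∈ range 2,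
          if l = b then |(U p.1 p.2).coeff b| + |(V p.1 p.2).coeff b| else 0)
          (fun p _ => Finset.sum_nonneg fun b _ => by split_ifs <;> positivity)
          (Finset.mem_univ (i, j)))
        simp only [Finset.sum_ite_eq, Finset.mem_range, hl, if_true]
        have a1 := abs_nonneg ((U i j).coeff l)
        have a2 := abs_nonneg ((V i j).coeff l)
        omega
      · rw [coeff_eq_zero_of_natDegree_lt (lt_of_le_of_lt (by first | exact hU1 i j | exact hV1 i j)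
          (by omega)), abs_zero]
        exact Finset.sum_nonneg fun p _ => Finset.sum_nonneg fun b _ => by
          split_ifs <;> positivity
  set R : ℝ := max 1 ((Fintype.card ι : ℝ) * ((E.eval 1 : ℤ) : ℝ)) with hR
  have hR1 : 1 ≤ R := le_max_left _ _
  set T0 : ℝ := ((n : ℝ) + 1) * (Fintype.card ι * R ^ n) with hT0
  have hcard1 : (1 : ℝ) ≤ Fintype.card ι := by rw [hι]; exact_mod_cast hd
  have hT01 : 1 ≤ T0 := by
    refine one_le_mul_of_one_le_of_one_le ?_ (one_le_mul_of_one_le_of_one_le hcard1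
      (one_le_pow₀ hR1))
    have : (0 : ℝ) ≤ n := n.cast_nonneg
    linarith
  set κ : ℝ := (n : ℝ) * d ^ 2 + d - 1 + ε with hκ
  set W : ℝ := max 1 ‖u‖ ^ n with hW
  have hW0 : 0 < W := by positivity
  refine ⟨c0 * T0 ^ (-κ) / W, by positivity, fun P hP hPn H hH => ?_⟩
  have hH1 : 1 ≤ H := by
    obtain ⟨k, hk⟩ : ∃ k, P.coeff k ≠ 0 := by
      by_contra hc
      push Not at hc
      exact hP (Polynomial.ext fun k => by rw [hc k, coeff_zero])
    refine le_trans ?_ (hH k)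
    have : (1 : ℤ) ≤ |P.coeff k| := Int.one_le_abs hk
    exact_mod_cast this
  have h1 := h0 ι hι (hom P U V) (T0 * H) (hdet P hP) (one_le_mul_of_one_le_of_one_le hT01 hH1)
    (fun i j => (hom_natDegree P hU1 hV1 i j).trans hPn)
    (fun i j l => hom_bound P hEU hEV hPn R hR1 (le_max_right _ _) H (by omega) hH i j l)
    v _ hv (hom_eig P hU hV)
  have h2 : ∑ k ∈ range (P.natDegree + 1), ((P.coeff k : ℤ) : ℂ) *
      (u ^ (P.natDegree - k) * (u * x) ^ k) = u ^ P.natDegree * aeval x P := by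
    rw [aeval_eq_sum_range, Finset.mul_sum]
    refine Finset.sum_congr rfl fun k hk => ?_
    have hk' : k ≤ P.natDegree := Nat.lt_succ_iff.1 (Finset.mem_range.1 hk)
    rw [zsmul_eq_mul, mul_pow]
    have h3 : u ^ P.natDegree = u ^ (P.natDegree - k) * u ^ k := by
      rw [← pow_add, Nat.sub_add_cancel hk']
    rw [h3]
    ring
  rw [h2, norm_mul, norm_pow] at h1
  have h3 : ‖u‖ ^ P.natDegree ≤ W :=
    (pow_le_pow_left₀ (norm_nonneg _) (le_max_right 1 _) _).trans
      (pow_le_pow_right₀ (le_max_left _ _) hPn)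
  have h4 : c0 * (T0 * H) ^ (-κ) ≤ W * ‖aeval x P‖ :=
    h1.trans (mul_le_mul_of_nonneg_right h3 (norm_nonneg _))
  rw [Real.mul_rpow (by linarith) (by linarith)] at h4
  rw [div_mul_eq_mul_div, div_le_iff₀ hW0]
  calc c0 * T0 ^ (-κ) * H ^ (-κ) = c0 * (T0 ^ (-κ) * H ^ (-κ)) := by ring
    _ ≤ W * ‖aeval x P‖ := h4
    _ = _ := mul_comm _ _

end Pool.Agent.EMeas
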