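import Mathlib
import Pool.Agent.EMeas.Cmp

/-!
# Consequences for `π`, `π + e` and `π e`
-/

set_option autoImplicit false

namespace Pool.Agent.EMeas

open Polynomial Finset

/-- The companion matrix with constant polynomial entries. -/
noncomputable def cN (A : ℤ[X]) : Matrix (Fin A.natDegree) (Fin A.natDegree) ℤ[X] :=
  (cmp A).map C

theorem atE_C {ι : Type} [Fintype ι] [DecidableEq ι] (p : ℤ[X]) :
    atE (p • (1 : Matrix ι ι ℤ[X])) = (aeval ((Real.exp 1 : ℝ) : ℂ) p) • (1 : Matrix ι ι ℂ) := by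
  ext i j
  show aeval ((Real.exp 1 : ℝ) : ℂ) ((p • (1 : Matrix ι ι ℤ[X])) i j) = _
  rw [Matrix.smul_apply, Matrix.smul_apply, Matrix.one_apply, Matrix.one_apply]
  split_ifs <;> simp

theorem atE_cN (A : ℤ[X]) (α : ℂ) (h : aeval α A = 0) :
    (atE (cN A)).mulVec (cv A α) = (((A.leadingCoeff : ℤ) : ℂ) * α) • cv A α := by
  funext j
  rw [Pi.smul_apply, smul_eq_mul, ← cmp_eig A α h j]
  show ∑ i, atE (cN A) j i * cv A α i = _
  refine Finset.sum_congr rfl fun i _ => ?_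
  congr 1
  show aeval ((Real.exp 1 : ℝ) : ℂ) (C (cmp A j i)) = _
  rw [aeval_C]
  simp

theorem natDegree_CX (a : ℤ) : (C a * X : ℤ[X]).natDegree ≤ 1 :=
  (natDegree_C_mul_le _ _).trans natDegree_X_le

/-- The matrix `a (M - X)`. -/
noncomputable def Vm (A : ℤ[X]) (a : ℤ) : Matrix (Fin A.natDegree) (Fin A.natDegree) ℤ[X] :=
  cN A - (C a * X : ℤ[X]) • (1 : Matrix (Fin A.natDegree) (Fin A.natDegree) ℤ[X])

theorem Vm_natDegree (A : ℤ[X]) (a : ℤ) (i j : Fin A.natDegree) : (Vm A a i j).natDegree ≤ 1 := by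
  rw [Vm, Matrix.sub_apply, Matrix.smul_apply, Matrix.one_apply, cN, Matrix.map_apply]
  refine (natDegree_sub_le _ _).trans (max_le (by rw [natDegree_C]; exact zero_le_one) ?_)
  split_ifs
  · rw [smul_eq_mul, mul_one]; exact natDegree_CX a
  · rw [smul_zero, natDegree_zero]; exact zero_le_one

theorem Vm_coeff (A : ℤ[X]) (a : ℤ) (i j : Fin A.natDegree) :
    (Vm A a i j).coeff 1 = if i = j then -a else 0 := by
  rw [Vm, Matrix.sub_apply, Matrix.smul_apply, Matrix.one_apply, cN, Matrix.map_apply, coeff_sub,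
    coeff_C_of_ne_zero one_ne_zero]
  split_ifs <;> simp

/-! ### The case of the sum -/

theorem V_top (A : ℤ[X]) (a : ℤ) : ∀ (k : ℕ) (i j : Fin A.natDegree),
    ((Vm A a ^ k) i j).coeff k = if i = j then (-a) ^ k else 0
  | 0, i, j => by
    rw [pow_zero, pow_zero, Matrix.one_apply]
    split_ifs <;> simp
  | k + 1, i, j => by
    rw [pow_succ, Matrix.mul_apply, finsetSum_coeff]
    have h1 : ∀ s ∈ (univ : Finset (Fin A.natDegree)),
        (((Vm A a ^ k) i s) * (Vm A a s j)).coeff (k + 1) =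
          (if i = s then (-a) ^ k else 0) * (if s = j then -a else 0) := by
      intro s _
      rw [coeff_mul_add_eq_of_natDegree_le (natDegree_pow_entry (Vm_natDegree A a) k i s)
        (Vm_natDegree A a s j), V_top A a k i s, Vm_coeff A a s j]
    rw [Finset.sum_congr rfl h1, Finset.sum_eq_single j]
    · rw [if_pos rfl, pow_succ]
      split_ifs
      · rfl
      · rw [zero_mul]
    · intro s _ hs
      rw [if_neg hs, mul_zero]
    · intro hn
      exact absurd (Finset.mem_univ _) hn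

theorem hom_det_sum (A : ℤ[X]) (a : ℤ) (ha : a ≠ 0) (P : ℤ[X]) (hP : P ≠ 0) :
    (hom P ((C a : ℤ[X]) • (1 : Matrix _ _ ℤ[X])) (Vm A a)).det ≠ 0 := by
  have hU1 : ∀ i j, (((C a : ℤ[X]) • (1 : Matrix (Fin A.natDegree) (Fin A.natDegree) ℤ[X]))
      i j).natDegree ≤ 1 := by
    intro i j
    rw [Matrix.smul_apply, Matrix.one_apply]
    split_ifs
    · rw [smul_eq_mul, mul_one, natDegree_C]; exact zero_le_one
    · rw [smul_zero, natDegree_zero]; exact zero_le_one
  intro h0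
  have h1 := coeff_det_top _ P.natDegree (hom_natDegree P hU1 (Vm_natDegree A a))
  rw [h0, coeff_zero] at h1
  have h2 : (Matrix.of fun i j => (hom P ((C a : ℤ[X]) • (1 : Matrix _ _ ℤ[X]))
      (Vm A a) i j).coeff P.natDegree) =
      Matrix.diagonal fun _ => P.leadingCoeff * (-a) ^ P.natDegree := by
    ext i j
    rw [Matrix.of_apply, hom, Matrix.sum_apply, finsetSum_coeff, Finset.sum_range_succ,
      Finset.sum_eq_zero, zero_add, Nat.sub_self, pow_zero, one_mul, Matrix.smul_apply,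
      smul_eq_mul, coeff_C_mul, V_top, Matrix.diagonal_apply]
    · split_ifs
      · rfl
      · rw [mul_zero]
    · intro k hk
      have hk' : k < P.natDegree := Finset.mem_range.1 hk
      rw [_root_.smul_pow, one_pow, smul_mul_assoc, one_mul, Matrix.smul_apply, Matrix.smul_apply,
        smul_eq_mul, smul_eq_mul, coeff_C_mul, ← C_pow, coeff_C_mul,
        coeff_eq_zero_of_natDegree_lt
          (lt_of_le_of_lt (natDegree_pow_entry (Vm_natDegree A a) k i j) hk')]
      ring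
  rw [h2, Matrix.det_diagonal, Finset.prod_const] at h1
  exact pow_ne_zero _ (mul_ne_zero (leadingCoeff_ne_zero.2 hP) (pow_ne_zero _ (neg_ne_zero.2 ha)))
    h1.symm

/-! ### The case of the product -/

theorem hom_det_prod (A : ℤ[X]) (hA : A ≠ 0) (hd : 0 < A.natDegree) (hA0 : A.coeff 0 ≠ 0) (a : ℤ)
    (P : ℤ[X]) (hP : P ≠ 0) :
    (hom P ((C a * X : ℤ[X]) • (1 : Matrix _ _ ℤ[X])) (cN A)).det ≠ 0 := by
  intro h0
  have h1 := congrArg (evalRingHom (0 : ℤ)) h0
  rw [RingHom.map_det, map_zero] at h1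
  have h2 : (evalRingHom (0 : ℤ)).mapMatrix (hom P ((C a * X : ℤ[X]) • (1 : Matrix _ _ ℤ[X]))
      (cN A)) = P.leadingCoeff • (cmp A) ^ P.natDegree := by
    have e1 : (evalRingHom (0 : ℤ)).mapMatrix (cN A) = cmp A := by
      ext i j
      rw [RingHom.mapMatrix_apply, Matrix.map_apply, cN, Matrix.map_apply]
      simp
    have e2 : ∀ k, k ≠ 0 → (evalRingHom (0 : ℤ)).mapMatrix
        (((C a * X : ℤ[X]) • (1 : Matrix (Fin A.natDegree) (Fin A.natDegree) ℤ[X])) ^ k) = 0 := by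
      intro k hk
      rw [_root_.smul_pow, one_pow]
      ext i j
      rw [RingHom.mapMatrix_apply, Matrix.map_apply, Matrix.smul_apply, smul_eq_mul, map_mul,
        map_pow]
      simp [hk]
    have e3 : ∀ (c : ℤ) (M : Matrix (Fin A.natDegree) (Fin A.natDegree) ℤ[X]),
        (evalRingHom (0 : ℤ)).mapMatrix ((C c : ℤ[X]) • M) =
          c • (evalRingHom (0 : ℤ)).mapMatrix M := by
      intro c M
      ext i j
      simp [RingHom.mapMatrix_apply]
    rw [hom, map_sum, Finset.sum_range_succ, Finset.sum_eq_zero, zero_add, e3, Nat.sub_self,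
      pow_zero, one_mul, map_pow, e1]
    · rfl
    · intro k hk
      have hk' : P.natDegree - k ≠ 0 := by have := Finset.mem_range.1 hk; omega
      rw [e3, map_mul, e2 _ hk', zero_mul, smul_zero]
  rw [h2, Matrix.det_smul, Matrix.det_pow] at h1
  exact mul_ne_zero (pow_ne_zero _ (leadingCoeff_ne_zero.2 hP))
    (pow_ne_zero _ (cmp_det A hA hd hA0)) h1

theorem norm_aeval_pi (P : ℤ[X]) : ‖aeval ((Real.pi : ℝ) : ℂ) P‖ = |aeval Real.pi P| := by
  have h2 := aeval_algebraMap_apply ℂ Real.pi P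
  have h3 : aeval ((Real.pi : ℝ) : ℂ) P = ((aeval Real.pi P : ℝ) : ℂ) := by simpa using h2
  rw [h3, Complex.norm_real, Real.norm_eq_abs]

/-- The measure for `π` if `π + e` or `π e` is algebraic. -/
theorem pi_measure_aux (A : ℤ[X]) (hA : A ≠ 0) (hA0 : A.coeff 0 ≠ 0)
    (h : aeval (((Real.pi + Real.exp 1 : ℝ)) : ℂ) A = 0 ∨
      aeval (((Real.pi * Real.exp 1 : ℝ)) : ℂ) A = 0) (n : ℕ) (ε : ℝ) (hε : 0 < ε) :
    ∃ c : ℝ, 0 < c ∧ ∀ P : ℤ[X], P ≠ 0 → P.natDegree ≤ n → ∀ H : ℝ,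
      (∀ k, |((P.coeff k : ℤ) : ℝ)| ≤ H) →
      c * H ^ (-((n : ℝ) * A.natDegree ^ 2 + A.natDegree - 1 + ε)) ≤ |aeval Real.pi P| := by
  have hd : 0 < A.natDegree := by
    rw [Nat.pos_iff_ne_zero]
    intro h0
    rw [natDegree_eq_zero] at h0
    obtain ⟨c, hc⟩ := h0
    have hc0 : c ≠ 0 := by rintro rfl; exact hA (by rw [← hc, C_0])
    rcases h with h | h <;>
    · rw [← hc, aeval_C] at h
      simp only [algebraMap_int_eq, eq_intCast, Int.cast_eq_zero] at h
      exact hc0 h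
  have hlc : A.leadingCoeff ≠ 0 := leadingCoeff_ne_zero.2 hA
  have hlcC : ((A.leadingCoeff : ℤ) : ℂ) ≠ 0 := by exact_mod_cast hlc
  have hU1 : ∀ p : ℤ[X], p.natDegree ≤ 1 → ∀ i j : Fin A.natDegree,
      ((p • (1 : Matrix (Fin A.natDegree) (Fin A.natDegree) ℤ[X])) i j).natDegree ≤ 1 := by
    intro p hp i j
    rw [Matrix.smul_apply, Matrix.one_apply]
    split_ifs
    · rwa [smul_eq_mul, mul_one]
    · rw [smul_zero, natDegree_zero]; exact zero_le_one
  have hN1 : ∀ i j, (cN A i j).natDegree ≤ 1 := by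
    intro i j
    rw [cN, Matrix.map_apply, natDegree_C]; exact zero_le_one
  rcases h with h | h
  · obtain ⟨c, hc, hP⟩ := pair_measure A.natDegree hd (Fintype.card_fin _)
      ((C A.leadingCoeff : ℤ[X]) • (1 : Matrix _ _ ℤ[X]))
      (Vm A A.leadingCoeff)
      (hU1 _ (by rw [natDegree_C]; exact zero_le_one)) (Vm_natDegree A _)
      (cv A _) (cv_ne A (((Real.pi + Real.exp 1 : ℝ)) : ℂ) hd) ((A.leadingCoeff : ℤ) : ℂ)
      ((Real.pi : ℝ) : ℂ)
      (by
        rw [atE_C, Matrix.smul_mulVec, Matrix.one_mulVec, aeval_C]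
        simp)
      (by
        have e1 : atE (Vm A A.leadingCoeff) =
            atE (cN A) - atE ((C A.leadingCoeff * X : ℤ[X]) • (1 : Matrix _ _ ℤ[X])) := by
          rw [Vm, atE_eq, atE_eq, atE_eq, map_sub]
        rw [e1, Matrix.sub_mulVec, atE_cN A _ h, atE_C, Matrix.smul_mulVec, Matrix.one_mulVec,
          ← sub_smul]
        congr 1
        rw [map_mul, aeval_C, aeval_X]
        push_cast
        simp only [algebraMap_int_eq, eq_intCast]
        ring)
      (fun P hP => hom_det_sum A _ hlc P hP) n ε hε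
    refine ⟨c, hc, fun P hP0 hPn H hH => ?_⟩
    rw [← norm_aeval_pi]
    exact hP P hP0 hPn H hH
  · obtain ⟨c, hc, hP⟩ := pair_measure A.natDegree hd (Fintype.card_fin _)
      ((C A.leadingCoeff * X : ℤ[X]) • (1 : Matrix _ _ ℤ[X])) (cN A)
      (hU1 _ (natDegree_CX _)) hN1
      (cv A _) (cv_ne A (((Real.pi * Real.exp 1 : ℝ)) : ℂ) hd)
      (((A.leadingCoeff : ℤ) : ℂ) * ((Real.exp 1 : ℝ) : ℂ)) ((Real.pi : ℝ) : ℂ)
      (by
        rw [atE_C, Matrix.smul_mulVec, Matrix.one_mulVec, map_mul, aeval_C, aeval_X]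
        simp)
      (by
        rw [atE_cN A _ h]
        congr 1
        push_cast
        ring)
      (fun P hP => hom_det_prod A hA hd hA0 _ P hP) n ε hε
    refine ⟨c, hc, fun P hP0 hPn H hH => ?_⟩
    rw [← norm_aeval_pi]
    exact hP P hP0 hPn H hH

/-- The measure for `π` if `π + e` or `π e` is algebraic. -/
theorem pi_measure (A : ℤ[X]) (hA : A ≠ 0)
    (h : aeval (Real.pi + Real.exp 1) A = 0 ∨ aeval (Real.pi * Real.exp 1) A = 0)
    (n : ℕ) (ε : ℝ) (hε : 0 < ε) :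
    ∃ c : ℝ, 0 < c ∧ ∀ P : ℤ[X], P ≠ 0 → P.natDegree ≤ n → ∀ H : ℝ,
      (∀ k, |((P.coeff k : ℤ) : ℝ)| ≤ H) →
      c * H ^ (-((n : ℝ) * A.natDegree ^ 2 + A.natDegree - 1 + ε)) ≤ |aeval Real.pi P| := by
  obtain ⟨A', hA', hndvd⟩ := exists_eq_pow_rootMultiplicity_mul_and_not_dvd A hA 0
  have hA'0 : A' ≠ 0 := by rintro rfl; exact hA (by rw [hA', mul_zero])
  have hcoef : A'.coeff 0 ≠ 0 := by
    intro h0
    refine hndvd ?_
    rw [C_0, sub_zero]
    exact X_dvd_iff.2 h0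
  have hdeg : A'.natDegree ≤ A.natDegree := by
    refine natDegree_le_of_dvd ⟨(X - C 0) ^ rootMultiplicity 0 A, ?_⟩ hA
    rw [mul_comm]; exact hA'
  have hC : ∀ (x : ℝ) (Q : ℤ[X]), aeval x Q = 0 → aeval ((x : ℝ) : ℂ) Q = 0 := by
    intro x Q hQ
    have h2 := aeval_algebraMap_apply ℂ x Q
    rw [hQ, map_zero] at h2
    simpa using h2
  have hroot : ∀ x : ℝ, x ≠ 0 → aeval x A = 0 → aeval x A' = 0 := by
    intro x hx h0
    rw [hA', map_mul, map_pow, map_sub, aeval_X, aeval_C, map_zero, sub_zero] at h0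
    exact (mul_eq_zero.1 h0).resolve_left (pow_ne_zero _ hx)
  have h1 : aeval (((Real.pi + Real.exp 1 : ℝ)) : ℂ) A' = 0 ∨
      aeval (((Real.pi * Real.exp 1 : ℝ)) : ℂ) A' = 0 := by
    have hpi := Real.pi_pos
    have he := Real.exp_pos 1
    rcases h with h | h
    · exact Or.inl (hC _ _ (hroot _ (by positivity) h))
    · exact Or.inr (hC _ _ (hroot _ (by positivity) h))
  obtain ⟨c, hc, hP⟩ := pi_measure_aux A' hA'0 hcoef h1 n ε hε
  refine ⟨c, hc, fun P hP0 hPn H hH => ?_⟩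
  have hH1 : 1 ≤ H := by
    obtain ⟨k, hk⟩ : ∃ k, P.coeff k ≠ 0 := by
      by_contra hcc
      push Not at hcc
      exact hP0 (Polynomial.ext fun k => by rw [hcc k, coeff_zero])
    refine le_trans ?_ (hH k)
    have : (1 : ℤ) ≤ |P.coeff k| := Int.one_le_abs hk
    exact_mod_cast this
  refine le_trans (mul_le_mul_of_nonneg_left ?_ hc.le) (hP P hP0 hPn H hH)
  refine Real.rpow_le_rpow_of_exponent_le hH1 ?_
  have h2 : (A'.natDegree : ℝ) ≤ A.natDegree := by exact_mod_cast hdeg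
  have h3 : (n : ℝ) * (A'.natDegree : ℝ) ^ 2 ≤ n * (A.natDegree : ℝ) ^ 2 := by gcongr
  linarith

end Pool.Agent.EMeas
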