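import Mathlib
import Pool.Agent.EMeas.PiE

/-!
# Simultaneous approximation of `π + e` and `π e`
-/

set_option autoImplicit false

namespace Pool.Agent.EMeas

open Polynomial Finset

theorem pi_lt : Real.pi < 3.15 := Real.pi_lt_d2
theorem e_lt : Real.exp 1 < 2.72 := Real.exp_one_lt_d9.trans (by norm_num)

/-- Rational approximations with a common denominator. -/
theorem rat_approx (ε : ℝ) (hε : 0 < ε) : ∃ c : ℝ, 0 < c ∧ ∀ p r q : ℤ, 0 < q →
    c * (q : ℝ) ^ (-(3 + ε)) ≤ max |Real.pi + Real.exp 1 - p / q| |Real.pi * Real.exp 1 - r / q| := by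
  obtain ⟨c0, hc0, h0⟩ := e_measure 2 ε hε
  refine ⟨min 1 (c0 * 10 ^ (-(2 + ε)) / 4), lt_min one_pos (by positivity), ?_⟩
  intro p r q hq
  have hq1 : (1 : ℝ) ≤ q := by exact_mod_cast hq
  have hq0 : (0 : ℝ) < q := by linarith
  set M := max |Real.pi + Real.exp 1 - p / q| |Real.pi * Real.exp 1 - r / q| with hM
  have hM1 : |Real.pi + Real.exp 1 - p / q| ≤ M := le_max_left _ _
  have hM2 : |Real.pi * Real.exp 1 - r / q| ≤ M := le_max_right _ _
  have hM0 : 0 ≤ M := (abs_nonneg _).trans hM1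
  rcases le_or_gt 1 M with h1 | h1
  · refine le_trans ?_ h1
    calc min 1 (c0 * 10 ^ (-(2 + ε)) / 4) * (q : ℝ) ^ (-(3 + ε)) ≤ 1 * 1 := by
          refine mul_le_mul (min_le_left _ _) ?_ (by positivity) zero_le_one
          exact Real.rpow_le_one_of_one_le_of_nonpos hq1 (by linarith)
      _ = 1 := one_mul 1
  · have hpi := pi_lt
    have he := e_lt
    have hpi0 := Real.pi_pos
    have he0 := Real.exp_pos 1
    have hpe : Real.pi * Real.exp 1 < 3.15 * 2.72 :=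
      mul_lt_mul'' hpi he hpi0.le he0.le
    have hp : |(p : ℝ)| ≤ 10 * q := by
      have e1 : (p : ℝ) = (p / q) * q := by field_simp
      have e2 : |(p : ℝ) / q| ≤ 10 := by
        rw [abs_le]
        have := abs_le.1 (hM1.trans h1.le)
        constructor <;> linarith [this.1, this.2]
      rw [e1, abs_mul, abs_of_pos hq0]
      exact mul_le_mul_of_nonneg_right e2 hq0.le
    have hr : |(r : ℝ)| ≤ 10 * q := by
      have e1 : (r : ℝ) = (r / q) * q := by field_simp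
      have e2 : |(r : ℝ) / q| ≤ 10 := by
        rw [abs_le]
        have := abs_le.1 (hM2.trans h1.le)
        have e3 : 0 < Real.pi * Real.exp 1 := by positivity
        constructor <;> linarith [this.1, this.2]
      rw [e1, abs_mul, abs_of_pos hq0]
      exact mul_le_mul_of_nonneg_right e2 hq0.le
    have h2 := h0 ![r, -p, q] (fun h => by
      have := congrFun h 2
      simp at this
      omega) (10 * q) (fun k => by
      fin_cases k
      · simpa using hr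
      · simpa using hp
      · simp only [Fin.reduceFinMk, Matrix.cons_val]
        rw [abs_of_pos hq0]; linarith)
    have h3 : ∑ k : Fin 3, (((![r, -p, q] : Fin 3 → ℤ) k : ℤ) : ℝ) * Real.exp 1 ^ (k : ℕ) =
        q * ((Real.pi + Real.exp 1 - p / q) * Real.exp 1 - (Real.pi * Real.exp 1 - r / q)) := by
      rw [Fin.sum_univ_three]
      simp only [Matrix.cons_val_zero, Matrix.cons_val_one, Matrix.cons_val, Fin.val_zero,
        Fin.val_one, Fin.val_two, pow_zero, pow_one, mul_one]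
      push_cast
      field_simp
      ring
    have h2' : c0 * (10 * (q : ℝ)) ^ (-(2 + ε)) ≤ q * (4 * M) := by
      refine le_trans h2 ?_
      rw [h3, abs_mul, abs_of_pos hq0]
      refine mul_le_mul_of_nonneg_left ?_ hq0.le
      calc |(Real.pi + Real.exp 1 - p / q) * Real.exp 1 - (Real.pi * Real.exp 1 - r / q)|
          ≤ |(Real.pi + Real.exp 1 - p / q) * Real.exp 1| + |Real.pi * Real.exp 1 - r / q| :=
            abs_sub _ _
        _ ≤ M * 3 + M := by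
            rw [abs_mul, abs_of_pos he0]
            exact add_le_add (mul_le_mul hM1 (by linarith) he0.le hM0) hM2
        _ = 4 * M := by ring
    have h4 : c0 * 10 ^ (-(2 + ε)) / 4 * (q : ℝ) ^ (-(3 + ε)) ≤ M := by
      have e1 : (q : ℝ) ^ (-(3 + ε)) = (q : ℝ) ^ (-(2 + ε)) / q := by
        rw [show -(3 + ε) = -(2 + ε) - 1 by ring, Real.rpow_sub_one hq0.ne']
      rw [Real.mul_rpow (by norm_num) hq0.le] at h2'
      rw [e1, div_mul_div_comm, div_le_iff₀ (by positivity)]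
      linarith
    exact le_trans (mul_le_mul_of_nonneg_right (min_le_right _ _) (by positivity)) h4

/-! ### Algebraic approximations -/

theorem exists_unif (f : ℕ → ℝ) (hf : ∀ D, 0 < f D) : ∀ N : ℕ, ∃ c : ℝ, 0 < c ∧ ∀ D ≤ N, c ≤ f D
  | 0 => ⟨f 0, hf 0, fun D hD => by rw [Nat.le_zero.1 hD]⟩
  | N + 1 => by
    obtain ⟨c, hc, h⟩ := exists_unif f hf N
    refine ⟨min c (f (N + 1)), lt_min hc (hf _), fun D hD => ?_⟩
    rcases Nat.lt_or_ge D (N + 1) with h1 | h1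
    · exact (min_le_left _ _).trans (h D (by omega))
    · rw [le_antisymm hD h1]
      exact min_le_right _ _

/-- The matrix for the number `e ^ 2 - α e + β`. -/
noncomputable def Qm (A B : ℤ[X]) :
    Matrix (Fin A.natDegree × Fin B.natDegree) (Fin A.natDegree × Fin B.natDegree) ℤ[X] :=
  Matrix.of fun p q => C (if p = q then A.leadingCoeff * B.leadingCoeff else 0) * X ^ 2 +
    C (-(if p.2 = q.2 then B.leadingCoeff * cmp A p.1 q.1 else 0)) * X +
      C (if p.1 = q.1 then A.leadingCoeff * cmp B p.2 q.2 else 0)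

theorem Qm_natDegree (A B : ℤ[X]) (p q : Fin A.natDegree × Fin B.natDegree) :
    (Qm A B p q).natDegree ≤ 2 := by
  unfold Qm
  rw [Matrix.of_apply]
  exact natDegree_quadratic_le

theorem quad_coeff (u w z : ℤ) (k : ℕ) : (C u * X ^ 2 + C w * X + C z : ℤ[X]).coeff k =
    (if k = 2 then u else 0) + (if k = 1 then w else 0) + (if k = 0 then z else 0) := by
  rw [coeff_add, coeff_add, coeff_C_mul, coeff_C_mul, coeff_X_pow, coeff_X, coeff_C]
  simp only [eq_comm (a := 1)]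
  split_ifs <;> simp

theorem quad0 (u w z : ℤ) : (C u * X ^ 2 + C w * X + C z : ℤ[X]).coeff 0 = z := by
  rw [quad_coeff]; simp

theorem quad1 (u w z : ℤ) : (C u * X ^ 2 + C w * X + C z : ℤ[X]).coeff (0 + 1) = w := by
  rw [quad_coeff]; simp

theorem quad2 (u w z : ℤ) : (C u * X ^ 2 + C w * X + C z : ℤ[X]).coeff 2 = u := by
  rw [quad_coeff]; simp

theorem quad3 (u w z : ℤ) (k : ℕ) :
    (C u * X ^ 2 + C w * X + C z : ℤ[X]).coeff (k + 1 + 1 + 1) = 0 := by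
  rw [quad_coeff]; simp

theorem Qm_bound (A B : ℤ[X]) (H : ℝ) (hA : ∀ k, |((A.coeff k : ℤ) : ℝ)| ≤ H)
    (hB : ∀ k, |((B.coeff k : ℤ) : ℝ)| ≤ H) (p q : Fin A.natDegree × Fin B.natDegree) (k : ℕ) :
    |(((Qm A B p q).coeff k : ℤ) : ℝ)| ≤ H ^ 2 := by
  have hH : 0 ≤ H := (abs_nonneg _).trans (hA 0)
  have h1 : ∀ x y : ℤ, |(x : ℝ)| ≤ H → |(y : ℝ)| ≤ H → ∀ P : Prop, ∀ _ : Decidable P,
      |((if P then x * y else 0 : ℤ) : ℝ)| ≤ H ^ 2 := by
    intro x y hx hy P _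
    split_ifs
    · push_cast
      rw [abs_mul, sq]
      exact mul_le_mul hx hy (abs_nonneg _) hH
    · simp only [Int.cast_zero, abs_zero]; positivity
  unfold Qm
  rw [Matrix.of_apply]
  rcases k with _ | _ | _ | k
  · rw [quad0]
    exact h1 _ _ (hA _) (cmp_bound B H hB _ _) _ _
  · rw [quad1]
    push_cast
    rw [abs_neg]
    have := h1 _ _ (hB B.natDegree) (cmp_bound A H hA p.1 q.1) (p.2 = q.2) inferInstance
    push_cast at this
    exact this
  · rw [show 0 + 1 + 1 = 2 from rfl, quad2]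
    exact h1 _ _ (hA _) (hB _) _ _
  · rw [quad3]
    simp only [Int.cast_zero, abs_zero]; positivity

theorem Qm_det (A B : ℤ[X]) (hA : A ≠ 0) (hB : B ≠ 0) : (Qm A B).det ≠ 0 := by
  intro h0
  have h1 := coeff_det_top (Qm A B) 2 (Qm_natDegree A B)
  rw [h0, coeff_zero] at h1
  have h2 : (Matrix.of fun p q => (Qm A B p q).coeff 2) =
      Matrix.diagonal fun _ => A.leadingCoeff * B.leadingCoeff := by
    ext p q
    rw [Matrix.of_apply, Qm, Matrix.of_apply, Matrix.diagonal_apply, quad2]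
  rw [h2, Matrix.det_diagonal, Finset.prod_const] at h1
  exact pow_ne_zero _ (mul_ne_zero (leadingCoeff_ne_zero.2 hA) (leadingCoeff_ne_zero.2 hB)) h1.symm

/-- The eigenvector. -/
noncomputable def qv (A B : ℤ[X]) (α β : ℂ) : Fin A.natDegree × Fin B.natDegree → ℂ :=
  fun p => cv A α p.1 * cv B β p.2

theorem Qm_eig (A B : ℤ[X]) (α β : ℂ) (hA : aeval α A = 0) (hB : aeval β B = 0) :
    (atE (Qm A B)).mulVec (qv A B α β) = (((A.leadingCoeff : ℤ) : ℂ) * ((B.leadingCoeff : ℤ) : ℂ) *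
      (((Real.exp 1 : ℝ) : ℂ) ^ 2 - α * ((Real.exp 1 : ℝ) : ℂ) + β)) • qv A B α β := by
  funext p
  rw [Pi.smul_apply, smul_eq_mul]
  set e : ℂ := ((Real.exp 1 : ℝ) : ℂ) with he
  have h1 : (atE (Qm A B)).mulVec (qv A B α β) p = ∑ q, atE (Qm A B) p q * qv A B α β q := rfl
  have h2 : ∀ q, atE (Qm A B) p q = (if p = q then ((A.leadingCoeff : ℤ) : ℂ) *
      ((B.leadingCoeff : ℤ) : ℂ) else 0) * e ^ 2 -
      (if p.2 = q.2 then ((B.leadingCoeff : ℤ) : ℂ) * ((cmp A p.1 q.1 : ℤ) : ℂ) else 0) * e +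
      (if p.1 = q.1 then ((A.leadingCoeff : ℤ) : ℂ) * ((cmp B p.2 q.2 : ℤ) : ℂ) else 0) := by
    intro q
    show aeval e (Qm A B p q) = _
    rw [Qm, Matrix.of_apply, map_add, map_add, map_mul, map_mul, map_pow, aeval_X, aeval_C,
      aeval_C, aeval_C]
    simp only [algebraMap_int_eq, eq_intCast]
    push_cast
    ring
  rw [h1]
  simp only [h2, sub_mul, add_mul]
  rw [Finset.sum_add_distrib, Finset.sum_sub_distrib]
  have s1 : ∑ q, (if p = q then ((A.leadingCoeff : ℤ) : ℂ) * ((B.leadingCoeff : ℤ) : ℂ) else 0) *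
      e ^ 2 * qv A B α β q =
      ((A.leadingCoeff : ℤ) : ℂ) * ((B.leadingCoeff : ℤ) : ℂ) * e ^ 2 * qv A B α β p := by
    rw [Finset.sum_eq_single p]
    · rw [if_pos rfl]
    · intro q _ hq
      rw [if_neg (Ne.symm hq), zero_mul, zero_mul]
    · intro hn
      exact absurd (Finset.mem_univ _) hn
  have s2 : ∑ q : Fin A.natDegree × Fin B.natDegree, (if p.2 = q.2 then ((B.leadingCoeff : ℤ) : ℂ) *
      ((cmp A p.1 q.1 : ℤ) : ℂ) else 0) * e * qv A B α β q =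
      ((B.leadingCoeff : ℤ) : ℂ) * e * (((A.leadingCoeff : ℤ) : ℂ) * α * cv A α p.1) *
        cv B β p.2 := by
    rw [← cmp_eig A α hA p.1, Fintype.sum_prod_type, Finset.mul_sum, Finset.sum_mul]
    refine Finset.sum_congr rfl fun i _ => ?_
    rw [Finset.sum_eq_single p.2]
    · rw [if_pos rfl, qv]
      ring
    · intro q _ hq
      rw [if_neg (Ne.symm hq), zero_mul, zero_mul]
    · intro hn
      exact absurd (Finset.mem_univ _) hn
  have s3 : ∑ q : Fin A.natDegree × Fin B.natDegree, (if p.1 = q.1 then ((A.leadingCoeff : ℤ) : ℂ) *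
      ((cmp B p.2 q.2 : ℤ) : ℂ) else 0) * qv A B α β q =
      ((A.leadingCoeff : ℤ) : ℂ) * cv A α p.1 * (((B.leadingCoeff : ℤ) : ℂ) * β * cv B β p.2) := by
    rw [← cmp_eig B β hB p.2, Fintype.sum_prod_type, Finset.sum_eq_single p.1]
    · rw [Finset.mul_sum]
      refine Finset.sum_congr rfl fun i _ => ?_
      rw [if_pos rfl, qv]
      ring
    · intro i _ hi
      refine Finset.sum_eq_zero fun j _ => ?_
      rw [if_neg (Ne.symm hi), zero_mul]
    · intro hn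
      exact absurd (Finset.mem_univ _) hn
  rw [s1, s2, s3]
  simp only [qv]
  ring

theorem pos_natDegree (A : ℤ[X]) (hA : A ≠ 0) (α : ℂ) (h : aeval α A = 0) : 0 < A.natDegree := by
  rw [Nat.pos_iff_ne_zero]
  intro h0
  rw [natDegree_eq_zero] at h0
  obtain ⟨c, hc⟩ := h0
  have hc0 : c ≠ 0 := by rintro rfl; exact hA (by rw [← hc, C_0])
  rw [← hc, aeval_C] at h
  simp only [algebraMap_int_eq, eq_intCast, Int.cast_eq_zero] at h
  exact hc0 h

/-- Algebraic approximations. -/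
theorem alg_approx (d : ℕ) (ε : ℝ) (hε : 0 < ε) : ∃ c : ℝ, 0 < c ∧ ∀ (α β : ℂ) (A B : ℤ[X]),
    A ≠ 0 → B ≠ 0 → A.natDegree ≤ d → B.natDegree ≤ d → aeval α A = 0 → aeval β B = 0 →
    ∀ H : ℝ, (∀ k, |((A.coeff k : ℤ) : ℝ)| ≤ H) → (∀ k, |((B.coeff k : ℤ) : ℝ)| ≤ H) →
    c * H ^ (-(4 * (d : ℝ) ^ 4 + 2 * (d : ℝ) ^ 2 + ε)) ≤
      max ‖((Real.pi + Real.exp 1 : ℝ) : ℂ) - α‖ ‖((Real.pi * Real.exp 1 : ℝ) : ℂ) - β‖ := by
  have h1 : ∀ D : ℕ, ∃ c : ℝ, 0 < c ∧ (1 ≤ D → ∀ (ι : Type) [Fintype ι] [DecidableEq ι],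
      Fintype.card ι = D → ∀ (B : Matrix ι ι ℤ[X]) (T : ℝ), B.det ≠ 0 → 1 ≤ T →
      (∀ i j, (B i j).natDegree ≤ 2) → (∀ i j k, |(((B i j).coeff k : ℤ) : ℝ)| ≤ T) →
      ∀ (v : ι → ℂ) (z : ℂ), v ≠ 0 → (atE B).mulVec v = z • v →
      c * T ^ (-(((2 : ℕ) : ℝ) * D ^ 2 + D - 1 + ε / 2)) ≤ ‖z‖) := by
    intro D
    by_cases hD : 1 ≤ D
    · obtain ⟨c, hc, h⟩ := mat_measure D 2 hD (ε / 2) (by positivity)
      exact ⟨c, hc, fun _ => h⟩
    · exact ⟨1, one_pos, fun h => absurd h hD⟩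
  choose f hf hfp using h1
  obtain ⟨c0, hc0, hc0f⟩ := exists_unif f hf (d * d)
  refine ⟨c0 / 4, by positivity, ?_⟩
  intro α β A B hA hB hAd hBd hα hβ H hHA hHB
  have hd1 := pos_natDegree A hA α hα
  have hd2 := pos_natDegree B hB β hβ
  set D := A.natDegree * B.natDegree with hD
  have hDd : D ≤ d * d := Nat.mul_le_mul hAd hBd
  have hD1 : 1 ≤ D := Nat.mul_pos hd1 hd2
  have hlcA : A.leadingCoeff ≠ 0 := leadingCoeff_ne_zero.2 hA
  have hlcB : B.leadingCoeff ≠ 0 := leadingCoeff_ne_zero.2 hB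
  have hH1 : 1 ≤ H := by
    refine le_trans ?_ (hHA A.natDegree)
    have : (1 : ℤ) ≤ |A.leadingCoeff| := Int.one_le_abs hlcA
    exact_mod_cast this
  have hH0 : 0 < H := by linarith
  have hv : qv A B α β ≠ 0 := by
    intro h
    have := congrFun h (⟨0, hd1⟩, ⟨0, hd2⟩)
    simp [qv, cv] at this
  have h2 := hfp D hD1 _ (by rw [Fintype.card_prod, Fintype.card_fin, Fintype.card_fin])
    (Qm A B) (H ^ 2) (Qm_det A B hA hB) (one_le_pow₀ hH1) (Qm_natDegree A B)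
    (Qm_bound A B H hHA hHB) _ _ hv (Qm_eig A B α β hα hβ)
  set e : ℂ := ((Real.exp 1 : ℝ) : ℂ) with he
  set M := max ‖((Real.pi + Real.exp 1 : ℝ) : ℂ) - α‖ ‖((Real.pi * Real.exp 1 : ℝ) : ℂ) - β‖
    with hM
  have hM1 : ‖((Real.pi + Real.exp 1 : ℝ) : ℂ) - α‖ ≤ M := le_max_left _ _
  have hM2 : ‖((Real.pi * Real.exp 1 : ℝ) : ℂ) - β‖ ≤ M := le_max_right _ _
  have hM0 : 0 ≤ M := (norm_nonneg _).trans hM1
  have h3 : ‖((A.leadingCoeff : ℤ) : ℂ) * ((B.leadingCoeff : ℤ) : ℂ) * (e ^ 2 - α * e + β)‖ ≤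
      H ^ 2 * (4 * M) := by
    rw [norm_mul, norm_mul, Complex.norm_intCast, Complex.norm_intCast]
    have e0 : |((A.leadingCoeff : ℤ) : ℝ)| * |((B.leadingCoeff : ℤ) : ℝ)| ≤ H ^ 2 := by
      rw [sq]
      exact mul_le_mul (hHA _) (hHB _) (abs_nonneg _) hH0.le
    refine mul_le_mul e0 ?_ (norm_nonneg _) (by positivity)
    have e1 : e ^ 2 - α * e + β = (((Real.pi + Real.exp 1 : ℝ) : ℂ) - α) * e -
        (((Real.pi * Real.exp 1 : ℝ) : ℂ) - β) := by
      rw [he]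
      push_cast
      ring
    have e2 : ‖e‖ ≤ 3 := by
      rw [he, Complex.norm_real, Real.norm_of_nonneg (Real.exp_pos 1).le]
      have := e_lt
      linarith
    rw [e1]
    calc ‖(((Real.pi + Real.exp 1 : ℝ) : ℂ) - α) * e - (((Real.pi * Real.exp 1 : ℝ) : ℂ) - β)‖
        ≤ ‖(((Real.pi + Real.exp 1 : ℝ) : ℂ) - α) * e‖ + ‖((Real.pi * Real.exp 1 : ℝ) : ℂ) - β‖ :=
          norm_sub_le _ _
      _ ≤ M * 3 + M := by
          rw [norm_mul]
          exact add_le_add (mul_le_mul hM1 e2 (norm_nonneg _) hM0) hM2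
      _ = 4 * M := by ring
  have h4 : c0 * H ^ (-(4 * (d : ℝ) ^ 4 + 2 * (d : ℝ) ^ 2 - 2 + ε)) ≤ H ^ 2 * (4 * M) := by
    refine le_trans ?_ (h2.trans h3)
    refine mul_le_mul (hc0f D hDd) ?_ (by positivity) (hf D).le
    rw [← Real.rpow_natCast H 2, ← Real.rpow_mul hH0.le]
    refine Real.rpow_le_rpow_of_exponent_le hH1 ?_
    have e1 : (D : ℝ) ≤ (d : ℝ) ^ 2 := by
      rw [sq]; exact_mod_cast hDd
    have e2 : (0 : ℝ) ≤ D := Nat.cast_nonneg _
    have e3 : (D : ℝ) ^ 2 ≤ (d : ℝ) ^ 4 := by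
      calc (D : ℝ) ^ 2 ≤ ((d : ℝ) ^ 2) ^ 2 := pow_le_pow_left₀ e2 e1 2
        _ = (d : ℝ) ^ 4 := by ring
    push_cast
    nlinarith
  have h5 : H ^ (-(4 * (d : ℝ) ^ 4 + 2 * (d : ℝ) ^ 2 + ε)) * H ^ 2 =
      H ^ (-(4 * (d : ℝ) ^ 4 + 2 * (d : ℝ) ^ 2 - 2 + ε)) := by
    rw [← Real.rpow_natCast H 2, ← Real.rpow_add hH0]
    congr 1
    push_cast
    ring
  rw [← h5] at h4
  have h6 : (c0 * H ^ (-(4 * (d : ℝ) ^ 4 + 2 * (d : ℝ) ^ 2 + ε))) * H ^ 2 ≤ (4 * M) * H ^ 2 := by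
    linarith
  have h7 := le_of_mul_le_mul_right h6 (by positivity)
  linarith

end Pool.Agent.EMeas
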