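import Mathlib
import Pool.Agent.EMeas.Mat

/-!
# The resultant of `A(T)` and `B(X T - X ^ 2)`
-/

set_option autoImplicit false

namespace Pool.Agent.EMeas

open Polynomial Finset
open scoped Nat

/-- `B(X (T - X))` as a polynomial in `T` with coefficients in `ℤ[X]`. -/
noncomputable def gB (B : ℤ[X]) : ℤ[X][X] := (B.map C).comp (C X * (X - C X))

/-- The resultant in `T` of `A(T)` and `B(X (T - X))`. -/
noncomputable def RR (A B : ℤ[X]) : ℤ[X] := resultant (A.map C) (gB B) A.natDegree B.natDegree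

theorem natDegree_lin_le : (C X * (X - C X) : ℤ[X][X]).natDegree ≤ 1 := by
  refine (natDegree_C_mul_le _ _).trans ?_
  exact natDegree_X_sub_C_le _

theorem gB_natDegree (B : ℤ[X]) : (gB B).natDegree ≤ B.natDegree := by
  refine (natDegree_comp_le).trans ?_
  calc (B.map C).natDegree * (C X * (X - C X) : ℤ[X][X]).natDegree
      ≤ B.natDegree * 1 := Nat.mul_le_mul natDegree_map_le natDegree_lin_le
    _ = B.natDegree := mul_one _

theorem gB_coeff (B : ℤ[X]) (i : ℕ) : (gB B).coeff i = ∑ j ∈ range (B.natDegree + 1),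
    C (B.coeff j) * (X ^ j * ((-X) ^ (j - i) * (j.choose i : ℤ[X]))) := by
  have h1 : gB B = ∑ j ∈ range (B.natDegree + 1),
      C (C (B.coeff j)) * (C X * (X - C X)) ^ j := by
    rw [gB, comp, eval₂_eq_sum_range' C (Nat.lt_succ_of_le (natDegree_map_le (f := C) (p := B)))]
    exact Finset.sum_congr rfl fun j _ => by rw [coeff_map]
  rw [h1, finsetSum_coeff]
  refine Finset.sum_congr rfl fun j _ => ?_
  have h2 : (X - C X : ℤ[X][X]) = X + C (-X) := by rw [C_neg, sub_eq_add_neg]
  rw [coeff_C_mul, mul_pow, ← C_pow, coeff_C_mul, h2, coeff_X_add_C_pow]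

theorem gB_coeff_natDegree (B : ℤ[X]) (i : ℕ) :
    ((gB B).coeff i).natDegree ≤ 2 * B.natDegree := by
  rw [gB_coeff]
  refine natDegree_sum_le_of_forall_le _ _ fun j hj => ?_
  have hj' : j ≤ B.natDegree := Nat.lt_succ_iff.1 (mem_range.1 hj)
  refine (natDegree_C_mul_le _ _).trans ((natDegree_mul_le).trans ?_)
  have h1 : ((X : ℤ[X]) ^ j).natDegree = j := natDegree_X_pow j
  have h2 : ((-X) ^ (j - i) * (j.choose i : ℤ[X]) : ℤ[X]).natDegree ≤ j := by
    refine (natDegree_mul_le).trans ?_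
    rw [natDegree_natCast, add_zero]
    refine (natDegree_pow_le).trans ?_
    rw [natDegree_neg, natDegree_X, mul_one]
    exact Nat.sub_le _ _
  omega

theorem gB_coeff_bound (B : ℤ[X]) (H : ℤ) (hH : ∀ k, |B.coeff k| ≤ H) (i k : ℕ) :
    |((gB B).coeff i).coeff k| ≤ H * 2 ^ (B.natDegree + 1) := by
  have hH0 : 0 ≤ H := (abs_nonneg _).trans (hH 0)
  rw [gB_coeff, finsetSum_coeff]
  refine (Finset.abs_sum_le_sum_abs _ _).trans ?_
  have h1 : ∀ j ∈ range (B.natDegree + 1), |(C (B.coeff j) * (X ^ j * ((-X) ^ (j - i) *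
      (j.choose i : ℤ[X])))).coeff k| ≤ H * 2 ^ j := by
    intro j _
    rw [coeff_C_mul, abs_mul]
    refine mul_le_mul (hH j) ?_ (abs_nonneg _) hH0
    have h2 : (X ^ j * ((-X) ^ (j - i) * (j.choose i : ℤ[X])) : ℤ[X]) =
        C ((-1) ^ (j - i) * (j.choose i : ℤ)) * X ^ (j + (j - i)) := by
      rw [neg_pow, C_mul, C_pow, C_neg, C_1]
      simp only [map_natCast]
      ring
    rw [h2, coeff_C_mul, coeff_X_pow, abs_mul, abs_mul, abs_pow, abs_neg, abs_one, one_pow, one_mul]
    have h3 : |((if k = j + (j - i) then 1 else 0 : ℤ))| ≤ 1 := by split_ifs <;> simp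
    have h4 : |(j.choose i : ℤ)| ≤ 2 ^ j := by
      rw [abs_of_nonneg (by positivity)]
      exact_mod_cast Nat.choose_le_two_pow j i
    calc |(j.choose i : ℤ)| * |((if k = j + (j - i) then 1 else 0 : ℤ))| ≤ 2 ^ j * 1 :=
          mul_le_mul h4 h3 (abs_nonneg _) (by positivity)
      _ = 2 ^ j := mul_one _
  refine (Finset.sum_le_sum h1).trans ?_
  rw [← Finset.mul_sum]
  refine mul_le_mul_of_nonneg_left ?_ hH0
  have h5 : ∀ n : ℕ, ∑ j ∈ range (n + 1), (2 : ℤ) ^ j ≤ 2 ^ (n + 1) := by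
    intro n
    have := Nat.geomSum_eq (le_refl 2) (n + 1)
    have h6 : ∑ j ∈ range (n + 1), (2 : ℕ) ^ j ≤ 2 ^ (n + 1) := by
      rw [this]; simp
    exact_mod_cast h6
  exact h5 _

/-- Column-wise bound for the coefficients of a determinant. -/
theorem coeff_det_bound_col {ι : Type} [Fintype ι] [DecidableEq ι] (M : Matrix ι ι ℤ[X]) (q : ℕ)
    (T : ι → ℤ) (hm : ∀ i j, (M i j).natDegree ≤ q) (hT : ∀ i j k, |(M i j).coeff k| ≤ T j)
    (k : ℕ) : |M.det.coeff k| ≤ (Fintype.card ι)! * ∏ j, (T j * (q + 1)) := by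
  obtain ⟨E, hE⟩ : ∃ E : ι → ℤ[X], ∀ j, E j = C (T j) * ∑ l ∈ range (q + 1), X ^ l :=
    ⟨_, fun _ => rfl⟩
  have hEc : ∀ j l, (E j).coeff l = if l ≤ q then T j else 0 := by
    intro j l
    rw [hE, coeff_C_mul, finsetSum_coeff]
    simp only [coeff_X_pow]
    rw [Finset.sum_ite_eq]
    simp only [Finset.mem_range, Nat.lt_succ_iff]
    split_ifs <;> simp
  have h1 : ∀ i j, Dom (M i j) (E j) := by
    intro i j l
    rw [hEc]
    split_ifs with h
    · exact hT i j l
    · rw [coeff_eq_zero_of_natDegree_lt (lt_of_le_of_lt (hm i j) (not_le.1 h)), abs_zero]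
  have h2 : Dom M.det (∑ _σ : Equiv.Perm ι, ∏ i : ι, E i) := by
    rw [Matrix.det_apply]
    exact Dom.sum _ _ _ fun σ _ => (Dom.prod _ _ _ fun i _ => h1 _ _).sign _
  refine (h2.le_eval k).trans (le_of_eq ?_)
  rw [Finset.sum_const, card_univ, Fintype.card_perm, nsmul_eq_mul, eval_mul, eval_natCast,
    eval_prod]
  congr 1
  refine Finset.prod_congr rfl fun j _ => ?_
  rw [hE, eval_mul, eval_C, eval_finsetSum]
  simp

/-- Bounds for the columns of the Sylvester matrix. -/
def Tc (m n : ℕ) (K L : ℤ) : Fin (m + n) → ℤ := Fin.addCases (fun _ => L) (fun _ => K)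

theorem Tc_prod {R : Type} [CommRing R] (m n : ℕ) (K L : ℤ) (f : ℤ → R) :
    ∏ j, f (Tc m n K L j) = f L ^ m * f K ^ n := by
  rw [Fin.prod_univ_add]
  simp [Tc]

theorem RR_coeff_bound (A B : ℤ[X]) (K H : ℤ) (hK : ∀ k, |A.coeff k| ≤ K)
    (hH : ∀ k, |B.coeff k| ≤ H) (k : ℕ) :
    |(RR A B).coeff k| ≤ (A.natDegree + B.natDegree)! *
      ((H * 2 ^ (B.natDegree + 1) * (2 * B.natDegree + 1)) ^ A.natDegree *
        (K * (2 * B.natDegree + 1)) ^ B.natDegree) := by
  have hK0 : 0 ≤ K := (abs_nonneg _).trans (hK 0)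
  have hH0 : 0 ≤ H := (abs_nonneg _).trans (hH 0)
  have h := coeff_det_bound_col (sylvester (A.map C) (gB B) A.natDegree B.natDegree)
    (2 * B.natDegree) (Tc A.natDegree B.natDegree K (H * 2 ^ (B.natDegree + 1))) ?_ ?_ k
  · rw [Tc_prod A.natDegree B.natDegree K (H * 2 ^ (B.natDegree + 1))
      (fun t => t * ((2 * B.natDegree : ℕ) + 1 : ℤ)), Fintype.card_fin] at h
    push_cast at h
    exact h
  · intro i j
    induction j using Fin.addCases with
    | left j =>
      simp only [sylvester, Matrix.of_apply, Fin.addCases_left]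
      split_ifs
      · exact gB_coeff_natDegree _ _
      · simp
    | right j =>
      simp only [sylvester, Matrix.of_apply, Fin.addCases_right]
      split_ifs
      · rw [coeff_map, natDegree_C]; exact Nat.zero_le _
      · simp
  · intro i j l
    induction j using Fin.addCases with
    | left j =>
      simp only [sylvester, Matrix.of_apply, Fin.addCases_left, Tc]
      split_ifs
      · exact gB_coeff_bound B H hH _ _
      · rw [coeff_zero, abs_zero]; positivity
    | right j =>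
      simp only [sylvester, Matrix.of_apply, Fin.addCases_right, Tc]
      split_ifs
      · rw [coeff_map, coeff_C]
        split_ifs
        · exact hK _
        · rw [abs_zero]; exact hK0
      · rw [coeff_zero, abs_zero]; exact hK0

end Pool.Agent.EMeas
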