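import Mathlib
import Pool.Agent.EMeas.Joint1

/-!
# Degree and non-vanishing of the resultant of `A(T)` and `B(X T - X ^ 2)`
-/

set_option autoImplicit false

namespace Pool.Agent.EMeas

open Polynomial Finset

/-- `ℤ[X] → ℂ[X]`. -/
noncomputable def toC : ℤ[X] →+* ℂ[X] := mapRingHom (Int.castRingHom ℂ)

theorem toC_inj : Function.Injective toC :=
  map_injective _ (RingHom.injective_int (Int.castRingHom ℂ))

theorem toC_apply (P : ℤ[X]) : toC P = P.map (Int.castRingHom ℂ) := rfl

theorem toC_natDegree (P : ℤ[X]) : (toC P).natDegree = P.natDegree :=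
  natDegree_map_eq_of_injective (RingHom.injective_int (Int.castRingHom ℂ)) P

theorem map_C_toC (A : ℤ[X]) : (A.map C).map toC = (toC A).map C := by
  rw [toC_apply, Polynomial.map_map, Polynomial.map_map]
  congr 1
  exact RingHom.ext_int _ _

theorem gB_eval (B : ℤ[X]) (α : ℂ) :
    ((gB B).map toC).eval (C α) = (toC B).comp (X * (C α - X)) := by
  have hX : toC X = X := by rw [toC_apply, map_X]
  have h1 : (gB B).map toC = ((toC B).map C).comp (C X * (X - C X)) := by
    rw [gB, map_comp, map_C_toC, Polynomial.map_mul, Polynomial.map_sub, map_C, map_X, hX]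
  rw [h1, eval_comp, eval_map]
  have h2 : eval (C α) (C X * (X - C X) : ℂ[X][X]) = X * (C α - X) := by
    rw [eval_mul, eval_sub, eval_C, eval_X]
  rw [h2, comp]

theorem RR_toC (A B : ℤ[X]) : toC (RR A B) = C ((toC A).leadingCoeff) ^ B.natDegree *
    ((toC A).roots.map fun α => (toC B).comp (X * (C α - X))).prod := by
  have h1 : toC (RR A B) = resultant ((A.map C).map toC) ((gB B).map toC) A.natDegree
      B.natDegree := by
    rw [resultant_map_map, RR]
  have hinj : Function.Injective (C : ℂ →+* ℂ[X]) := C_injective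
  have hs : (toC A).Splits := IsAlgClosed.splits _
  have hdeg : ((toC A).map C : ℂ[X][X]).natDegree = A.natDegree := by
    rw [natDegree_map_eq_of_injective hinj, toC_natDegree]
  have hg : ((gB B).map toC).natDegree ≤ B.natDegree := natDegree_map_le.trans (gB_natDegree B)
  rw [h1, map_C_toC, ← hdeg, resultant_eq_prod_eval _ _ _ hg (hs.map C),
    leadingCoeff_map_of_injective hinj, hs.roots_map_of_injective hinj, Multiset.map_map]
  congr 2
  refine Multiset.map_congr rfl fun α _ => ?_
  exact gB_eval B α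

theorem quad_natDegree (α : ℂ) : (X * (C α - X) : ℂ[X]).natDegree = 2 := by
  have h : (X * (C α - X) : ℂ[X]) = -(X * (X - C α)) := by ring
  rw [h, natDegree_neg, natDegree_X_mul (X_sub_C_ne_zero α), natDegree_X_sub_C]

theorem RR_natDegree (A B : ℤ[X]) : (RR A B).natDegree ≤ 2 * A.natDegree * B.natDegree := by
  rw [← toC_natDegree, RR_toC, ← C_pow]
  refine (natDegree_C_mul_le _ _).trans ((natDegree_multiset_prod_le _).trans ?_)
  rw [Multiset.map_map]
  refine (Multiset.sum_le_card_nsmul _ (B.natDegree * 2) ?_).trans ?_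
  · intro x hx
    obtain ⟨α, _, rfl⟩ := Multiset.mem_map.1 hx
    refine (natDegree_comp_le).trans ?_
    rw [quad_natDegree, toC_natDegree]
  · rw [Multiset.card_map, smul_eq_mul]
    have h := card_roots' (toC A)
    rw [toC_natDegree] at h
    calc _ ≤ A.natDegree * (B.natDegree * 2) := Nat.mul_le_mul h le_rfl
      _ = _ := by ring

theorem RR_ne_zero (A B : ℤ[X]) (hA : A ≠ 0) (hB : B ≠ 0) : RR A B ≠ 0 := by
  intro h
  have h1 := RR_toC A B
  rw [h, map_zero] at h1
  have hA' : toC A ≠ 0 := fun h0 => hA (toC_inj (by rw [h0, map_zero]))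
  have hB' : toC B ≠ 0 := fun h0 => hB (toC_inj (by rw [h0, map_zero]))
  rcases mul_eq_zero.1 h1.symm with h2 | h2
  · have h4 : (C ((toC A).leadingCoeff) : ℂ[X]) = 0 := by
      by_contra hne
      exact pow_ne_zero _ hne h2
    rw [C_eq_zero, leadingCoeff_eq_zero] at h4
    exact hA' h4
  · rw [Multiset.prod_eq_zero_iff] at h2
    obtain ⟨α, _, h3⟩ := Multiset.mem_map.1 h2
    have h4 := natDegree_comp (p := toC B) (q := (X * (C α - X) : ℂ[X]))
    rw [h3, natDegree_zero, quad_natDegree] at h4
    have h5 : (toC B).natDegree = 0 := by omega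
    obtain ⟨b, hb⟩ := natDegree_eq_zero.1 h5
    rw [← hb, C_comp, C_eq_zero] at h3
    exact hB' (by rw [← hb, h3, C_0])

end Pool.Agent.EMeas
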