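import Mathlib
import Pool.Agent.EMeas.Joint2

/-!
# The resultant at `e` is small when `A(θ)` and `B(e (θ - e))` are small
-/

set_option autoImplicit false

namespace Pool.Agent.EMeas

open Polynomial Finset
open scoped Nat

/-- Evaluation at `e`. -/
noncomputable def evR : ℤ[X] →+* ℝ := (aeval (Real.exp 1) : ℤ[X] →ₐ[ℤ] ℝ).toRingHom

theorem evR_apply (P : ℤ[X]) : evR P = aeval (Real.exp 1) P := rfl

theorem map_C_evR (A : ℤ[X]) : (A.map C).map evR = A.map (Int.castRingHom ℝ) := by
  rw [Polynomial.map_map]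
  congr 1
  exact RingHom.ext_int _ _

theorem eval_cast (A : ℤ[X]) (t : ℝ) : (A.map (Int.castRingHom ℝ)).eval t = aeval t A := by
  rw [aeval_def, eval₂_eq_eval_map]
  congr 2

theorem gB_evR (B : ℤ[X]) (t : ℝ) :
    ((gB B).map evR).eval t = aeval (Real.exp 1 * (t - Real.exp 1)) B := by
  have hX : evR X = Real.exp 1 := by rw [evR_apply, aeval_X]
  have h1 : (gB B).map evR = (B.map (Int.castRingHom ℝ)).comp
      (C (Real.exp 1) * (X - C (Real.exp 1))) := by
    rw [gB, map_comp, map_C_evR, Polynomial.map_mul, Polynomial.map_sub, map_C, map_X, hX]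
  rw [h1, eval_comp, eval_cast]
  congr 2
  simp

/-- One column of the product of `(1, t, t ^ 2, ..)` with the Sylvester matrix. -/
theorem sum_shift (N q j : ℕ) (h : ℝ[X]) (hq : h.natDegree ≤ q) (hj : j + q < N) (t : ℝ) :
    ∑ i : Fin N, t ^ (i : ℕ) * (if (i : ℕ) ∈ Set.Icc j (j + q) then h.coeff (i - j) else 0) =
      t ^ j * h.eval t := by
  rw [Fin.sum_univ_eq_sum_range (fun i => t ^ i * (if i ∈ Set.Icc j (j + q) then
    h.coeff (i - j) else 0)) N]
  have h1 : ∑ i ∈ Ico j (j + q + 1), t ^ i * (if i ∈ Set.Icc j (j + q) then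
      h.coeff (i - j) else 0) = ∑ i ∈ range N, t ^ i * (if i ∈ Set.Icc j (j + q) then
      h.coeff (i - j) else 0) := by
    refine Finset.sum_subset (fun i hi => ?_) fun i _ hi => ?_
    · rw [Finset.mem_Ico] at hi
      rw [Finset.mem_range]
      omega
    · rw [if_neg, mul_zero]
      rw [Set.mem_Icc]
      rw [Finset.mem_Ico] at hi
      omega
  rw [← h1, Finset.sum_Ico_eq_sum_range, eval_eq_sum_range' (Nat.lt_succ_of_le hq), Finset.mul_sum]
  have h2 : j + q + 1 - j = q + 1 := by omega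
  rw [h2]
  refine Finset.sum_congr rfl fun k hk => ?_
  rw [Finset.mem_range] at hk
  rw [if_pos (by rw [Set.mem_Icc]; omega), Nat.add_sub_cancel_left, pow_add]
  ring

theorem vecMul_sylvester (m n : ℕ) (f g : ℝ[X]) (hf : f.natDegree ≤ m) (hg : g.natDegree ≤ n)
    (t : ℝ) (j : Fin (m + n)) :
    Matrix.vecMul (fun i : Fin (m + n) => t ^ (i : ℕ)) (sylvester f g m n) j =
      Fin.addCases (fun j₁ : Fin m => t ^ (j₁ : ℕ) * g.eval t)
        (fun j₁ : Fin n => t ^ (j₁ : ℕ) * f.eval t) j := by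
  induction j using Fin.addCases with
  | left j =>
    simp only [Matrix.vecMul, dotProduct, sylvester, Matrix.of_apply, Fin.addCases_left]
    exact sum_shift (m + n) n j g hg (by omega) t
  | right j =>
    simp only [Matrix.vecMul, dotProduct, sylvester, Matrix.of_apply, Fin.addCases_right]
    exact sum_shift (m + n) m j f hf (by omega) t

theorem det_abs_le {ι : Type} [Fintype ι] [DecidableEq ι] (A : Matrix ι ι ℝ)
    (hA : ∀ i j, |A i j| ≤ 1) : |A.det| ≤ (Fintype.card ι)! := by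
  have h1 := Matrix.det_le (A := A) (abv := (AbsoluteValue.abs : AbsoluteValue ℝ ℝ))
    (x := 1) fun i j => hA i j
  rw [nsmul_eq_mul, one_pow, mul_one] at h1
  exact h1

theorem adj_abs_le {ι : Type} [Fintype ι] [DecidableEq ι] (A : Matrix ι ι ℝ)
    (hA : ∀ i j, |A i j| ≤ 1) (i j : ι) : |A.adjugate i j| ≤ (Fintype.card ι)! := by
  rw [Matrix.adjugate_apply]
  refine det_abs_le _ fun a b => ?_
  by_cases h : a = j
  · rw [h, Matrix.updateRow_self]
    by_cases h2 : b = i
    · rw [h2, Pi.single_eq_same, abs_one]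
    · rw [Pi.single_eq_of_ne h2, abs_zero]; exact zero_le_one
  · rw [Matrix.updateRow_ne h]; exact hA a b

/-- If `v S` is small, then so is `det S`; column-wise version. -/
theorem det_small {ι : Type} [Fintype ι] [DecidableEq ι] (S : Matrix ι ι ℝ) (T : ι → ℝ)
    (hT : ∀ j, 0 < T j) (hS : ∀ i j, |S i j| ≤ T j) (v : ι → ℝ) (i0 : ι) (hv : v i0 = 1)
    (δ : ℝ) (hδ : ∀ j, |Matrix.vecMul v S j| ≤ T j * δ) :
    |S.det| ≤ (Fintype.card ι) * (Fintype.card ι)! * (∏ j, T j) * δ := by
  obtain ⟨S', hS'⟩ : ∃ S' : Matrix ι ι ℝ, S' = Matrix.of fun i j => S i j / T j := ⟨_, rfl⟩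
  have h1 : S = Matrix.of fun i j => T j * S' i j := by
    ext i j
    rw [hS', Matrix.of_apply, Matrix.of_apply, mul_div_cancel₀ _ (hT j).ne']
  have h2 : S.det = (∏ j, T j) * S'.det := by
    conv_lhs => rw [h1]
    exact Matrix.det_mul_row T S'
  have h3 : ∀ i j, |S' i j| ≤ 1 := by
    intro i j
    rw [hS', Matrix.of_apply, abs_div, abs_of_pos (hT j), div_le_one (hT j)]
    exact hS i j
  have h4 : ∀ j, |Matrix.vecMul v S' j| ≤ δ := by
    intro j
    have h5 : Matrix.vecMul v S' j = Matrix.vecMul v S j / T j := by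
      simp only [Matrix.vecMul, dotProduct, hS', Matrix.of_apply]
      rw [Finset.sum_div]
      exact Finset.sum_congr rfl fun i _ => by ring
    rw [h5, abs_div, abs_of_pos (hT j), div_le_iff₀ (hT j), mul_comm]
    exact hδ j
  have h5 : Matrix.vecMul (Matrix.vecMul v S') S'.adjugate = S'.det • v := by
    rw [Matrix.vecMul_vecMul, Matrix.mul_adjugate, Matrix.vecMul_smul, Matrix.vecMul_one]
  have h6 := congrFun h5 i0
  rw [Pi.smul_apply, smul_eq_mul, hv, mul_one] at h6
  have h7 : |S'.det| ≤ (Fintype.card ι) * (Fintype.card ι)! * δ := by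
    rw [← h6]
    simp only [Matrix.vecMul, dotProduct]
    refine (Finset.abs_sum_le_sum_abs _ _).trans ((Finset.sum_le_card_nsmul _ _
      (((Fintype.card ι)! : ℝ) * δ) fun j _ => ?_).trans (le_of_eq ?_))
    · rw [abs_mul, mul_comm]
      exact mul_le_mul (adj_abs_le S' h3 j i0) (h4 j) (abs_nonneg _) (by positivity)
    · rw [card_univ, nsmul_eq_mul]; ring
  have hP : 0 < ∏ j, T j := Finset.prod_pos fun j _ => hT j
  rw [h2, abs_mul, abs_of_pos hP]
  calc (∏ j, T j) * |S'.det| ≤ (∏ j, T j) * ((Fintype.card ι) * (Fintype.card ι)! * δ) :=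
        mul_le_mul_of_nonneg_left h7 hP.le
    _ = _ := by ring

end Pool.Agent.EMeas
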