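import Mathlib
import Pool.Agent.EMeas.Joint3

/-!
# A joint measure for `π + e` and `π e`
-/

set_option autoImplicit false

namespace Pool.Agent.EMeas

open Polynomial Finset
open scoped Nat

theorem evR_bound (P : ℤ[X]) (q : ℕ) (T : ℝ) (hq : P.natDegree ≤ q)
    (hT : ∀ k, |((P.coeff k : ℤ) : ℝ)| ≤ T) :
    |evR P| ≤ ((q : ℝ) + 1) * Real.exp 1 ^ q * T := by
  have h1 : evR P = ∑ k ∈ range (q + 1), ((P.coeff k : ℤ) : ℝ) * Real.exp 1 ^ k := by
    rw [evR_apply, aeval_eq_sum_range' (Nat.lt_succ_of_le hq)]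
    exact Finset.sum_congr rfl fun k _ => zsmul_eq_mul _ _
  have hT0 : 0 ≤ T := (abs_nonneg _).trans (hT 0)
  rw [h1]
  refine (Finset.abs_sum_le_sum_abs _ _).trans ((Finset.sum_le_card_nsmul _ _
    (Real.exp 1 ^ q * T) fun k hk => ?_).trans (le_of_eq ?_))
  · rw [abs_mul, mul_comm, abs_of_nonneg (by positivity : (0 : ℝ) ≤ Real.exp 1 ^ k)]
    exact mul_le_mul (pow_le_pow_right₀ (Real.one_le_exp zero_le_one)
      (Nat.lt_succ_iff.1 (mem_range.1 hk))) (hT k) (abs_nonneg _) (by positivity)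
  · rw [card_range, nsmul_eq_mul]; push_cast; ring

/-- Real bounds for the columns. -/
noncomputable def Tr (m n : ℕ) (K L : ℝ) : Fin (m + n) → ℝ :=
  Fin.addCases (fun _ => L) (fun _ => K)

theorem Tr_prod (m n : ℕ) (K L : ℝ) : ∏ j, Tr m n K L j = L ^ m * K ^ n := by
  rw [Fin.prod_univ_add]
  simp [Tr]

/-- The size of the resultant at `e`. -/
theorem RR_small (A B : ℤ[X]) (K H : ℝ) (hK1 : 1 ≤ K) (hH1 : 1 ≤ H)
    (hK : ∀ k, |((A.coeff k : ℤ) : ℝ)| ≤ K) (hH : ∀ k, |((B.coeff k : ℤ) : ℝ)| ≤ H)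
    (hN : 0 < A.natDegree + B.natDegree) (μ : ℝ)
    (hA : |aeval (Real.pi + Real.exp 1) A| ≤ μ * K)
    (hB : |aeval (Real.pi * Real.exp 1) B| ≤ μ * H) :
    |evR (RR A B)| ≤ ((A.natDegree + B.natDegree : ℕ) : ℝ) * ((A.natDegree + B.natDegree)! : ℝ) *
      (((2 * (B.natDegree : ℝ) + 1) * Real.exp 1 ^ (2 * B.natDegree) *
        (2 ^ (B.natDegree + 1) * H)) ^ A.natDegree * K ^ B.natDegree) *
      ((Real.pi + Real.exp 1) ^ (A.natDegree + B.natDegree) * μ) := by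
  obtain ⟨m, hm⟩ : ∃ m, m = A.natDegree := ⟨_, rfl⟩
  obtain ⟨n, hn⟩ : ∃ n, n = B.natDegree := ⟨_, rfl⟩
  rw [← hm, ← hn] at hN ⊢
  obtain ⟨t, ht⟩ : ∃ t, t = Real.pi + Real.exp 1 := ⟨_, rfl⟩
  have he1 : 1 ≤ Real.exp 1 := Real.one_le_exp zero_le_one
  have ht1 : 1 ≤ t := by rw [ht]; linarith [Real.pi_pos]
  have hμ : 0 ≤ μ := by
    by_contra hc
    have : μ * K < 0 := mul_neg_of_neg_of_pos (not_le.1 hc) (by linarith)
    linarith [abs_nonneg (aeval (Real.pi + Real.exp 1) A)]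
  obtain ⟨G, hG⟩ : ∃ G, G = (2 * (n : ℝ) + 1) * Real.exp 1 ^ (2 * n) * (2 ^ (n + 1) * H) :=
    ⟨_, rfl⟩
  have hGH : H ≤ G := by
    rw [hG]
    have h1 : 1 ≤ (2 * (n : ℝ) + 1) * Real.exp 1 ^ (2 * n) * 2 ^ (n + 1) := by
      have a1 : (1 : ℝ) ≤ 2 * (n : ℝ) + 1 := by linarith [n.cast_nonneg (α := ℝ)]
      have a2 : (1 : ℝ) ≤ Real.exp 1 ^ (2 * n) := one_le_pow₀ he1
      have a3 : (1 : ℝ) ≤ 2 ^ (n + 1) := one_le_pow₀ (by norm_num)
      exact one_le_mul_of_one_le_of_one_le (one_le_mul_of_one_le_of_one_le a1 a2) a3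
    calc H = 1 * H := (one_mul H).symm
      _ ≤ ((2 * (n : ℝ) + 1) * Real.exp 1 ^ (2 * n) * 2 ^ (n + 1)) * H :=
          mul_le_mul_of_nonneg_right h1 (by linarith)
      _ = _ := by ring
  have hG0 : 0 < G := by linarith
  have hdet : evR (RR A B) = (sylvester ((A.map C).map evR) ((gB B).map evR) m n).det := by
    rw [RR, ← resultant_map_map, resultant, hm, hn]
  have hbnd : ∀ i j, |sylvester ((A.map C).map evR) ((gB B).map evR) m n i j| ≤
      Tr m n K G j := by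
    intro i j
    induction j using Fin.addCases with
    | left j =>
      simp only [sylvester, Matrix.of_apply, Fin.addCases_left, Tr]
      split_ifs
      · rw [coeff_map, hG]
        have h1 := evR_bound ((gB B).coeff (i - j)) (2 * n) (2 ^ (n + 1) * H)
          ((gB_coeff_natDegree B _).trans (le_of_eq (by rw [hn]))) ?_
        · push_cast at h1
          exact h1
        · intro k
          have h2 := gB_coeff_bound B ⌊H⌋ (fun k => Int.le_floor.2 (by push_cast; exact hH k))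
            (i - j) k
          rw [← hn] at h2
          have h3 : |((((gB B).coeff (i - j)).coeff k : ℤ) : ℝ)| ≤ (⌊H⌋ : ℝ) * 2 ^ (n + 1) := by
            exact_mod_cast h2
          calc _ ≤ (⌊H⌋ : ℝ) * 2 ^ (n + 1) := h3
            _ ≤ H * 2 ^ (n + 1) := mul_le_mul_of_nonneg_right (Int.floor_le H) (by positivity)
            _ = _ := mul_comm _ _
      · rw [abs_zero]; exact hG0.le
    | right j =>
      simp only [sylvester, Matrix.of_apply, Fin.addCases_right, Tr]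
      split_ifs
      · rw [map_C_evR, coeff_map]; exact hK _
      · rw [abs_zero]; linarith
  have hTpos : ∀ j, 0 < Tr m n K G j := by
    intro j
    induction j using Fin.addCases with
    | left j => simp only [Tr, Fin.addCases_left]; exact hG0
    | right j => simp only [Tr, Fin.addCases_right]; linarith
  have hf : ((A.map C).map evR).natDegree ≤ m := by
    rw [hm]; exact natDegree_map_le.trans natDegree_map_le
  have hg : ((gB B).map evR).natDegree ≤ n := by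
    rw [hn]; exact natDegree_map_le.trans (gB_natDegree B)
  have hfe : ((A.map C).map evR).eval t = aeval t A := by rw [map_C_evR, eval_cast]
  have hge : ((gB B).map evR).eval t = aeval (Real.pi * Real.exp 1) B := by
    rw [gB_evR, ht]
    congr 2
    ring
  have hδ : ∀ j, |Matrix.vecMul (fun i : Fin (m + n) => t ^ (i : ℕ))
      (sylvester ((A.map C).map evR) ((gB B).map evR) m n) j| ≤
      Tr m n K G j * (t ^ (m + n) * μ) := by
    intro j
    rw [vecMul_sylvester m n _ _ hf hg t j]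
    induction j using Fin.addCases with
    | left j =>
      simp only [Tr, Fin.addCases_left]
      rw [hge, abs_mul, abs_of_nonneg (by positivity : (0 : ℝ) ≤ t ^ (j : ℕ))]
      have h1 : t ^ (j : ℕ) ≤ t ^ (m + n) := pow_le_pow_right₀ ht1 (by omega)
      calc t ^ (j : ℕ) * |aeval (Real.pi * Real.exp 1) B| ≤ t ^ (m + n) * (μ * G) :=
            mul_le_mul h1 (hB.trans (mul_le_mul_of_nonneg_left hGH hμ)) (abs_nonneg _)
              (by positivity)
        _ = _ := by ring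
    | right j =>
      simp only [Tr, Fin.addCases_right]
      rw [hfe, abs_mul, abs_of_nonneg (by positivity : (0 : ℝ) ≤ t ^ (j : ℕ))]
      have h1 : t ^ (j : ℕ) ≤ t ^ (m + n) := pow_le_pow_right₀ ht1 (by omega)
      have h2 : |aeval t A| ≤ μ * K := by rw [ht]; exact hA
      calc t ^ (j : ℕ) * |aeval t A| ≤ t ^ (m + n) * (μ * K) :=
            mul_le_mul h1 h2 (abs_nonneg _) (by positivity)
        _ = _ := by ring
  have h := det_small _ (Tr m n K G) hTpos hbnd _ (⟨0, hN⟩ : Fin (m + n)) (by simp) _ hδ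
  rw [Tr_prod, Fintype.card_fin] at h
  rw [hdet]
  refine h.trans (le_of_eq ?_)
  rw [hG, ht]

/-- The joint measure for exact degrees. -/
theorem joint_exact (m n : ℕ) (hN : 0 < m + n) (ε : ℝ) (hε : 0 < ε) : ∃ c : ℝ, 0 < c ∧
    ∀ A B : ℤ[X], A ≠ 0 → B ≠ 0 → A.natDegree = m → B.natDegree = n → ∀ K H : ℝ, 1 ≤ K → 1 ≤ H →
    (∀ k, |((A.coeff k : ℤ) : ℝ)| ≤ K) → (∀ k, |((B.coeff k : ℤ) : ℝ)| ≤ H) →
    c * (K ^ n * H ^ m) ^ (-(2 * (m : ℝ) * n + 1 + ε)) ≤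
      max (|aeval (Real.pi + Real.exp 1) A| / K) (|aeval (Real.pi * Real.exp 1) B| / H) := by
  obtain ⟨c0, hc0, h0⟩ := e_measure_poly (2 * m * n) ε hε
  obtain ⟨c1, hc1⟩ : ∃ c1 : ℝ, c1 = ((m + n)! : ℝ) *
      ((2 ^ (n + 1) * (2 * (n : ℝ) + 1)) ^ m * (2 * (n : ℝ) + 1) ^ n) := ⟨_, rfl⟩
  obtain ⟨c2, hc2⟩ : ∃ c2 : ℝ, c2 = ((m + n : ℕ) : ℝ) * ((m + n)! : ℝ) *
      (((2 * (n : ℝ) + 1) * Real.exp 1 ^ (2 * n) * 2 ^ (n + 1)) ^ m) *
      (Real.pi + Real.exp 1) ^ (m + n) := ⟨_, rfl⟩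
  have hpe : 0 < Real.pi + Real.exp 1 := by positivity
  have hN' : (0 : ℝ) < ((m + n : ℕ) : ℝ) := by exact_mod_cast hN
  have hc1p : 0 < c1 := by rw [hc1]; positivity
  have hc2p : 0 < c2 := by rw [hc2]; positivity
  refine ⟨c0 * c1 ^ (-(2 * (m : ℝ) * n + ε)) / c2, by positivity, ?_⟩
  intro A B hA hB hdA hdB K H hK1 hH1 hK hH
  obtain ⟨μ, hμ⟩ : ∃ μ, μ = max (|aeval (Real.pi + Real.exp 1) A| / K)
    (|aeval (Real.pi * Real.exp 1) B| / H) := ⟨_, rfl⟩
  rw [← hμ]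
  have hK0 : 0 < K := by linarith
  have hH0 : 0 < H := by linarith
  have hA' : |aeval (Real.pi + Real.exp 1) A| ≤ μ * K := by
    rw [← div_le_iff₀ hK0, hμ]; exact le_max_left _ _
  have hB' : |aeval (Real.pi * Real.exp 1) B| ≤ μ * H := by
    rw [← div_le_iff₀ hH0, hμ]; exact le_max_right _ _
  have h1 := RR_small A B K H hK1 hH1 hK hH (by rw [hdA, hdB]; exact hN) μ hA' hB'
  rw [hdA, hdB] at h1
  have h2 := h0 (RR A B) (RR_ne_zero A B hA hB)
    (by have := RR_natDegree A B; rwa [hdA, hdB] at this) (c1 * (K ^ n * H ^ m)) ?_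
  · rw [← evR_apply] at h2
    have h3 := h2.trans h1
    obtain ⟨Y, hY⟩ : ∃ Y, Y = K ^ n * H ^ m := ⟨_, rfl⟩
    have hY0 : 0 < Y := by rw [hY]; positivity
    rw [← hY] at h3 ⊢
    rw [Real.mul_rpow hc1p.le hY0.le] at h3
    have hexp : -(((2 * m * n : ℕ) : ℝ) + ε) = -(2 * (m : ℝ) * n + ε) := by push_cast; ring
    rw [hexp] at h3
    have h4 : ((m + n : ℕ) : ℝ) * ((m + n)! : ℝ) *
        (((2 * (n : ℝ) + 1) * Real.exp 1 ^ (2 * n) * (2 ^ (n + 1) * H)) ^ m * K ^ n) *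
        ((Real.pi + Real.exp 1) ^ (m + n) * μ) = c2 * Y * μ := by
      rw [hc2, hY, ← mul_assoc (_ * _) (2 ^ (n + 1)) H, mul_pow _ H]
      ring
    rw [h4] at h3
    have h5 : Y ^ (-(2 * (m : ℝ) * n + 1 + ε)) = Y ^ (-(2 * (m : ℝ) * n + ε)) / Y := by
      have h6 : -(2 * (m : ℝ) * n + 1 + ε) = -(2 * (m : ℝ) * n + ε) - 1 := by ring
      rw [h6, Real.rpow_sub hY0, Real.rpow_one]
    rw [h5]
    have h7 : c0 * c1 ^ (-(2 * (m : ℝ) * n + ε)) / c2 * (Y ^ (-(2 * (m : ℝ) * n + ε)) / Y) =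
        (c0 * (c1 ^ (-(2 * (m : ℝ) * n + ε)) * Y ^ (-(2 * (m : ℝ) * n + ε)))) / (c2 * Y) := by
      field_simp
    rw [h7, div_le_iff₀ (by positivity)]
    calc _ ≤ c2 * Y * μ := h3
      _ = μ * (c2 * Y) := by ring
  · intro k
    have h3 := RR_coeff_bound A B ⌊K⌋ ⌊H⌋ (fun k => Int.le_floor.2 (by push_cast; exact hK k))
      (fun k => Int.le_floor.2 (by push_cast; exact hH k)) k
    rw [hdA, hdB] at h3
    have h4 : |(((RR A B).coeff k : ℤ) : ℝ)| ≤ ((m + n)! : ℝ) *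
      (((⌊H⌋ : ℝ) * 2 ^ (n + 1) * (2 * (n : ℝ) + 1)) ^ m * ((⌊K⌋ : ℝ) * (2 * (n : ℝ) + 1)) ^ n) := by
      exact_mod_cast h3
    have hfK : (0 : ℝ) ≤ (⌊K⌋ : ℝ) := by exact_mod_cast Int.floor_nonneg.2 hK0.le
    have hfH : (0 : ℝ) ≤ (⌊H⌋ : ℝ) := by exact_mod_cast Int.floor_nonneg.2 hH0.le
    refine h4.trans ?_
    have h5 : ((⌊H⌋ : ℝ) * 2 ^ (n + 1) * (2 * (n : ℝ) + 1)) ^ m ≤
        (H * 2 ^ (n + 1) * (2 * (n : ℝ) + 1)) ^ m := by
      refine pow_le_pow_left₀ (by positivity) ?_ m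
      exact mul_le_mul_of_nonneg_right (mul_le_mul_of_nonneg_right (Int.floor_le H)
        (by positivity)) (by positivity)
    have h6 : ((⌊K⌋ : ℝ) * (2 * (n : ℝ) + 1)) ^ n ≤ (K * (2 * (n : ℝ) + 1)) ^ n := by
      refine pow_le_pow_left₀ (by positivity) ?_ n
      exact mul_le_mul_of_nonneg_right (Int.floor_le K) (by positivity)
    calc _ ≤ ((m + n)! : ℝ) * ((H * 2 ^ (n + 1) * (2 * (n : ℝ) + 1)) ^ m *
          (K * (2 * (n : ℝ) + 1)) ^ n) :=
          mul_le_mul_of_nonneg_left (mul_le_mul h5 h6 (by positivity) (by positivity))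
            (by positivity)
      _ = c1 * (K ^ n * H ^ m) := by
          rw [hc1, mul_assoc H, mul_pow, mul_pow K]
          ring

end Pool.Agent.EMeas
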