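import Mathlib
import Pool.Agent.EMeas.Joint4
import Pool.Agent.EMeas.Approx

/-!
# A joint measure for `π + e` and `π e`, and what it says if one of them is rational
-/

set_option autoImplicit false

namespace Pool.Agent.EMeas

open Polynomial Finset

theorem one_le_of_bound (A : ℤ[X]) (hA : A ≠ 0) (K : ℝ)
    (hK : ∀ k, |((A.coeff k : ℤ) : ℝ)| ≤ K) : 1 ≤ K := by
  have h1 : A.leadingCoeff ≠ 0 := leadingCoeff_ne_zero.2 hA
  have h2 : 1 ≤ |A.leadingCoeff| := Int.one_le_abs h1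
  have h3 : (1 : ℝ) ≤ |((A.coeff A.natDegree : ℤ) : ℝ)| := by exact_mod_cast h2
  exact h3.trans (hK _)

/-- The joint measure. -/
theorem joint (m d : ℕ) (hm : 1 ≤ m) (hd : 1 ≤ d) (ε : ℝ) (hε : 0 < ε) : ∃ c : ℝ, 0 < c ∧
    ∀ A B : ℤ[X], A ≠ 0 → B ≠ 0 → A.natDegree ≤ m → B.natDegree ≤ d →
    ∀ K H : ℝ, (∀ k, |((A.coeff k : ℤ) : ℝ)| ≤ K) → (∀ k, |((B.coeff k : ℤ) : ℝ)| ≤ H) →
    c * (K ^ d * H ^ m) ^ (-(2 * (m : ℝ) * d + 1 + ε)) ≤
      max (|aeval (Real.pi + Real.exp 1) A| / K) (|aeval (Real.pi * Real.exp 1) B| / H) := by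
  classical
  choose f hf hf' using fun (m n : ℕ) (hN : 0 < m + n) => joint_exact m n hN ε hε
  obtain ⟨F, hF⟩ : ∃ F : ℕ → ℕ → ℝ, ∀ a b, F a b = if h : 0 < a + b then f a b h else 1 :=
    ⟨fun a b => if h : 0 < a + b then f a b h else 1, fun _ _ => rfl⟩
  have hFpos : ∀ a b, 0 < F a b := by
    intro a b
    rw [hF]
    split_ifs with h
    · exact hf a b h
    · exact one_pos
  choose G hG hG' using fun a : ℕ => exists_unif (F a) (hFpos a) d
  obtain ⟨c, hc, hc'⟩ := exists_unif G hG m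
  refine ⟨c, hc, ?_⟩
  intro A B hA hB hdA hdB K H hK hH
  have hK1 := one_le_of_bound A hA K hK
  have hH1 := one_le_of_bound B hB H hH
  have hcF : c ≤ F A.natDegree B.natDegree := (hc' _ hdA).trans (hG' _ _ hdB)
  have hY1 : 1 ≤ K ^ d * H ^ m :=
    one_le_mul_of_one_le_of_one_le (one_le_pow₀ hK1) (one_le_pow₀ hH1)
  by_cases hN : 0 < A.natDegree + B.natDegree
  · have h1 := hf' _ _ hN A B hA hB rfl rfl K H hK1 hH1 hK hH
    refine le_trans ?_ h1
    have h2 : F A.natDegree B.natDegree = f A.natDegree B.natDegree hN := by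
      rw [hF, dif_pos hN]
    rw [h2] at hcF
    have hy1 : 1 ≤ K ^ B.natDegree * H ^ A.natDegree :=
      one_le_mul_of_one_le_of_one_le (one_le_pow₀ hK1) (one_le_pow₀ hH1)
    have hyY : K ^ B.natDegree * H ^ A.natDegree ≤ K ^ d * H ^ m :=
      mul_le_mul (pow_le_pow_right₀ hK1 hdB) (pow_le_pow_right₀ hH1 hdA) (by positivity)
        (by positivity)
    have he : 2 * (A.natDegree : ℝ) * B.natDegree + 1 + ε ≤ 2 * (m : ℝ) * d + 1 + ε := by
      have h3 : (A.natDegree : ℝ) * B.natDegree ≤ m * d := by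
        exact_mod_cast Nat.mul_le_mul hdA hdB
      nlinarith
    refine mul_le_mul hcF ?_ (by positivity) (hf _ _ _).le
    calc (K ^ d * H ^ m) ^ (-(2 * (m : ℝ) * d + 1 + ε))
        ≤ (K ^ d * H ^ m) ^ (-(2 * (A.natDegree : ℝ) * B.natDegree + 1 + ε)) :=
          Real.rpow_le_rpow_of_exponent_le hY1 (by linarith)
      _ ≤ _ := by
          refine Real.rpow_le_rpow_of_nonpos (by positivity) hyY ?_
          have : (0 : ℝ) ≤ 2 * (A.natDegree : ℝ) * B.natDegree := by positivity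
          linarith
  · have hA0 : A.natDegree = 0 := by omega
    have hB0 : B.natDegree = 0 := by omega
    obtain ⟨a, ha⟩ := natDegree_eq_zero.1 hA0
    have ha0 : a ≠ 0 := by
      rintro rfl
      exact hA (by rw [← ha, C_0])
    have h2 : |aeval (Real.pi + Real.exp 1) A| = |(a : ℝ)| := by
      rw [← ha, aeval_C]
      rfl
    have h3 : (1 : ℝ) ≤ |(a : ℝ)| := by exact_mod_cast Int.one_le_abs ha0
    have hc1 : c ≤ 1 := by
      refine hcF.trans (le_of_eq ?_)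
      rw [hF, dif_neg hN]
    refine le_trans ?_ (le_max_left _ _)
    rw [h2]
    have h4 : (K ^ d * H ^ m) ^ (-(2 * (m : ℝ) * d + 1 + ε)) ≤ K⁻¹ := by
      have h5 : (K ^ d * H ^ m) ^ (-(2 * (m : ℝ) * d + 1 + ε)) ≤ (K ^ d * H ^ m) ^ (-1 : ℝ) := by
        refine Real.rpow_le_rpow_of_exponent_le hY1 ?_
        have : (0 : ℝ) ≤ 2 * (m : ℝ) * d := by positivity
        linarith
      refine h5.trans ?_
      rw [Real.rpow_neg_one]
      refine inv_anti₀ (by linarith) ?_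
      calc K = K ^ 1 * 1 := by ring
        _ ≤ K ^ d * H ^ m := mul_le_mul (pow_le_pow_right₀ hK1 hd) (one_le_pow₀ hH1)
            zero_le_one (by positivity)
    calc c * (K ^ d * H ^ m) ^ (-(2 * (m : ℝ) * d + 1 + ε)) ≤ 1 * K⁻¹ :=
          mul_le_mul hc1 h4 (by positivity) zero_le_one
      _ = 1 / K := by rw [one_mul, one_div]
      _ ≤ |(a : ℝ)| / K := div_le_div_of_nonneg_right h3 (by linarith)

/-- If `π + e` is algebraic of degree at most `m`, then `π e` has a measure with exponent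
`m (2 m d + 1) - 1 + ε` in degree `d` (`2 d + ε` if `π + e` is rational). -/
theorem sum_algebraic (m d : ℕ) (hm : 1 ≤ m) (hd : 1 ≤ d) (ε : ℝ) (hε : 0 < ε) (A : ℤ[X])
    (hA : A ≠ 0) (hdA : A.natDegree ≤ m) (h0 : aeval (Real.pi + Real.exp 1) A = 0) :
    ∃ c : ℝ, 0 < c ∧ ∀ B : ℤ[X], B ≠ 0 → B.natDegree ≤ d → ∀ H : ℝ,
      (∀ k, |((B.coeff k : ℤ) : ℝ)| ≤ H) →
      c * H ^ (-((m : ℝ) * (2 * m * d + 1) - 1 + ε)) ≤ |aeval (Real.pi * Real.exp 1) B| := by
  obtain ⟨c, hc, h⟩ := joint m d hm hd (ε / m) (by positivity)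
  obtain ⟨K, hK⟩ : ∃ K : ℝ, ∀ k, |((A.coeff k : ℤ) : ℝ)| ≤ K := by
    refine ⟨∑ k ∈ A.support, |((A.coeff k : ℤ) : ℝ)|, fun k => ?_⟩
    by_cases hk : k ∈ A.support
    · exact Finset.single_le_sum (f := fun k => |((A.coeff k : ℤ) : ℝ)|)
        (fun i _ => abs_nonneg _) hk
    · rw [notMem_support_iff.1 hk, Int.cast_zero, abs_zero]
      exact Finset.sum_nonneg fun i _ => abs_nonneg _
  have hK1 := one_le_of_bound A hA K hK
  have hm' : (0 : ℝ) < m := by exact_mod_cast hm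
  refine ⟨c * (K ^ d) ^ (-(2 * (m : ℝ) * d + 1 + ε / m)), by positivity, ?_⟩
  intro B hB hdB H hH
  have hH1 := one_le_of_bound B hB H hH
  have hH0 : 0 < H := by linarith
  have h1 := h A B hA hB hdA hdB K H hK hH
  rw [h0, abs_zero, zero_div, max_eq_right (by positivity),
    Real.mul_rpow (by positivity) (by positivity), le_div_iff₀ hH0] at h1
  refine le_trans (le_of_eq ?_) h1
  have h2 : (H ^ m) ^ (-(2 * (m : ℝ) * d + 1 + ε / m)) * H =
      H ^ (-((m : ℝ) * (2 * m * d + 1) - 1 + ε)) := by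
    rw [← Real.rpow_natCast H m, ← Real.rpow_mul hH0.le]
    nth_rewrite 2 [← Real.rpow_one H]
    rw [← Real.rpow_add hH0]
    congr 1
    field_simp
    ring
  rw [← h2]
  ring

/-- If `π e` is algebraic of degree at most `d`, then `π + e` has a measure with exponent
`d (2 m d + 1) - 1 + ε` in degree `m`. -/
theorem prod_algebraic (m d : ℕ) (hm : 1 ≤ m) (hd : 1 ≤ d) (ε : ℝ) (hε : 0 < ε) (B : ℤ[X])
    (hB : B ≠ 0) (hdB : B.natDegree ≤ d) (h0 : aeval (Real.pi * Real.exp 1) B = 0) :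
    ∃ c : ℝ, 0 < c ∧ ∀ A : ℤ[X], A ≠ 0 → A.natDegree ≤ m → ∀ K : ℝ,
      (∀ k, |((A.coeff k : ℤ) : ℝ)| ≤ K) →
      c * K ^ (-((d : ℝ) * (2 * m * d + 1) - 1 + ε)) ≤ |aeval (Real.pi + Real.exp 1) A| := by
  obtain ⟨c, hc, h⟩ := joint m d hm hd (ε / d) (by positivity)
  obtain ⟨H, hH⟩ : ∃ H : ℝ, ∀ k, |((B.coeff k : ℤ) : ℝ)| ≤ H := by
    refine ⟨∑ k ∈ B.support, |((B.coeff k : ℤ) : ℝ)|, fun k => ?_⟩
    by_cases hk : k ∈ B.support
    · exact Finset.single_le_sum (f := fun k => |((B.coeff k : ℤ) : ℝ)|)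
        (fun i _ => abs_nonneg _) hk
    · rw [notMem_support_iff.1 hk, Int.cast_zero, abs_zero]
      exact Finset.sum_nonneg fun i _ => abs_nonneg _
  have hH1 := one_le_of_bound B hB H hH
  have hd' : (0 : ℝ) < d := by exact_mod_cast hd
  refine ⟨c * (H ^ m) ^ (-(2 * (m : ℝ) * d + 1 + ε / d)), by positivity, ?_⟩
  intro A hA hdA K hK
  have hK1 := one_le_of_bound A hA K hK
  have hK0 : 0 < K := by linarith
  have h1 := h A B hA hB hdA hdB K H hK hH
  rw [h0, abs_zero, zero_div, max_eq_left (by positivity),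
    Real.mul_rpow (by positivity) (by positivity), le_div_iff₀ hK0] at h1
  refine le_trans (le_of_eq ?_) h1
  have h2 : (K ^ d) ^ (-(2 * (m : ℝ) * d + 1 + ε / d)) * K =
      K ^ (-((d : ℝ) * (2 * m * d + 1) - 1 + ε)) := by
    rw [← Real.rpow_natCast K d, ← Real.rpow_mul hK0.le]
    nth_rewrite 2 [← Real.rpow_one K]
    rw [← Real.rpow_add hK0]
    congr 1
    field_simp
    ring
  rw [← h2]
  ring

end Pool.Agent.EMeas
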