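import Mathlib
import Pool.Agent.EMeas.Joint5

/-!
# Rational approximations to `π + e` and `π e`
-/

set_option autoImplicit false

namespace Pool.Agent.EMeas

open Polynomial Finset

theorem lin_coeff (p q : ℤ) (k : ℕ) : (C q * X - C p : ℤ[X]).coeff k =
    if k = 0 then -p else if k = 1 then q else 0 := by
  rw [coeff_sub, coeff_C_mul, coeff_X, coeff_C]
  rcases Nat.eq_zero_or_pos k with h | h
  · subst h; simp
  · by_cases h1 : k = 1
    · subst h1; simp
    · have h2 : k ≠ 0 := by omega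
      simp [h1, h2, Ne.symm h1]

theorem lin_bound (p q : ℤ) (t : ℝ) (ht : |t| ≤ 9) (hq : 0 < q) (h : |t - p / q| ≤ 1) (k : ℕ) :
    |(((C q * X - C p : ℤ[X]).coeff k : ℤ) : ℝ)| ≤ 10 * q := by
  have hq' : (1 : ℝ) ≤ q := by exact_mod_cast hq
  have h1 : |(p : ℝ)| ≤ 10 * q := by
    have h2 : |(p : ℝ) / q| ≤ 10 := by
      have : (p : ℝ) / q = t - (t - p / q) := by ring
      rw [this]
      exact (abs_sub _ _).trans (by linarith)
    rw [abs_div, abs_of_pos (by linarith : (0 : ℝ) < q), div_le_iff₀ (by linarith)] at h2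
    exact h2
  rw [lin_coeff]
  split_ifs
  · rw [Int.cast_neg, abs_neg]; exact h1
  · rw [abs_of_nonneg (by linarith)]; linarith
  · rw [Int.cast_zero, abs_zero]; linarith

theorem lin_ne (p q : ℤ) (hq : 0 < q) : (C q * X - C p : ℤ[X]) ≠ 0 := by
  intro h
  have h1 := congrArg (fun P : ℤ[X] => P.coeff 1) h
  simp only [lin_coeff, coeff_zero] at h1
  simp at h1
  omega

theorem lin_natDegree (p q : ℤ) : (C q * X - C p : ℤ[X]).natDegree ≤ 1 := by
  refine (natDegree_sub_le _ _).trans ?_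
  rw [natDegree_C]
  exact max_le ((natDegree_C_mul_le _ _).trans natDegree_X_le) (Nat.zero_le _)

theorem lin_aeval (p q : ℤ) (hq : 0 < q) (t : ℝ) :
    |aeval t (C q * X - C p : ℤ[X])| / (10 * q) = |t - p / q| / 10 := by
  have hq' : (0 : ℝ) < q := by exact_mod_cast hq
  have h1 : aeval t (C q * X - C p : ℤ[X]) = q * (t - p / q) := by
    simp only [map_sub, map_mul, aeval_C, aeval_X]
    simp only [algebraMap_int_eq, eq_intCast]
    field_simp
  rw [h1, abs_mul, abs_of_pos hq']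
  field_simp

theorem pe9 : |Real.pi + Real.exp 1| ≤ 9 := by
  rw [abs_of_pos (by positivity)]
  linarith [pi_lt, e_lt]

theorem pe9' : |Real.pi * Real.exp 1| ≤ 9 := by
  rw [abs_of_pos (by positivity)]
  have h1 := pi_lt
  have h2 := e_lt
  have h3 := Real.pi_pos
  have h4 := Real.exp_pos 1
  nlinarith

/-- Pairs of rational approximations to `π + e` and `π e`. -/
theorem rat_pair (ε : ℝ) (hε : 0 < ε) : ∃ c : ℝ, 0 < c ∧ ∀ p q r s : ℤ, 0 < q → 0 < s →
    c * ((q : ℝ) * s) ^ (-(3 + ε)) ≤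
      max |Real.pi + Real.exp 1 - p / q| |Real.pi * Real.exp 1 - r / s| := by
  obtain ⟨c, hc, h⟩ := joint 1 1 le_rfl le_rfl ε hε
  obtain ⟨c', hc'⟩ : ∃ c' : ℝ, c' = min 1 (10 * c * 100 ^ (-(3 + ε))) := ⟨_, rfl⟩
  have hc0 : 0 < c' := by rw [hc']; positivity
  refine ⟨c', hc0, fun p q r s hq hs => ?_⟩
  have hq' : (1 : ℝ) ≤ q := by exact_mod_cast hq
  have hs' : (1 : ℝ) ≤ s := by exact_mod_cast hs
  have hqs : 1 ≤ (q : ℝ) * s := one_le_mul_of_one_le_of_one_le hq' hs'
  have hle : ((q : ℝ) * s) ^ (-(3 + ε)) ≤ 1 :=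
    Real.rpow_le_one_of_one_le_of_nonpos hqs (by linarith)
  by_cases h1 : max |Real.pi + Real.exp 1 - p / q| |Real.pi * Real.exp 1 - r / s| ≤ 1
  · have hA := (le_max_left _ _).trans h1
    have hB := (le_max_right _ _).trans h1
    have h2 := h (C q * X - C p) (C s * X - C r) (lin_ne p q hq) (lin_ne r s hs)
      (lin_natDegree _ _) (lin_natDegree _ _) (10 * q) (10 * s) (lin_bound p q _ pe9 hq hA)
      (lin_bound r s _ pe9' hs hB)
    rw [lin_aeval p q hq, lin_aeval r s hs, max_div_div_right (by norm_num : (0 : ℝ) ≤ 10),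
      le_div_iff₀ (by norm_num)] at h2
    have h3 : (10 * (q : ℝ)) ^ 1 * (10 * (s : ℝ)) ^ 1 = 100 * ((q : ℝ) * s) := by ring
    have h4 : -(2 * ((1 : ℕ) : ℝ) * ((1 : ℕ) : ℝ) + 1 + ε) = -(3 + ε) := by push_cast; ring
    rw [h3, h4, Real.mul_rpow (by norm_num) (by positivity)] at h2
    refine le_trans ?_ h2
    calc c' * ((q : ℝ) * s) ^ (-(3 + ε)) ≤ (10 * c * 100 ^ (-(3 + ε))) *
          ((q : ℝ) * s) ^ (-(3 + ε)) :=
          mul_le_mul_of_nonneg_right (by rw [hc']; exact min_le_right _ _) (by positivity)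
      _ = _ := by ring
  · refine le_trans ?_ (not_le.1 h1).le
    calc c' * ((q : ℝ) * s) ^ (-(3 + ε)) ≤ 1 * 1 :=
          mul_le_mul (by rw [hc']; exact min_le_left _ _) hle (by positivity) zero_le_one
      _ = 1 := one_mul _

/-- If `π + e` is rational, then `π e` has irrationality exponent at most `3`. -/
theorem sum_rational (h : ¬ Irrational (Real.pi + Real.exp 1)) (ε : ℝ) (hε : 0 < ε) :
    ∃ c : ℝ, 0 < c ∧ ∀ r s : ℤ, 0 < s → c * (s : ℝ) ^ (-(3 + ε)) ≤
      |Real.pi * Real.exp 1 - r / s| := by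
  obtain ⟨c, hc, hpair⟩ := rat_pair ε hε
  rw [Irrational, not_not] at h
  obtain ⟨t, ht⟩ := h
  have hd : (0 : ℝ) < (t.den : ℝ) := by exact_mod_cast t.den_pos
  refine ⟨c * (t.den : ℝ) ^ (-(3 + ε)), by positivity, fun r s hs => ?_⟩
  have h1 := hpair t.num t.den r s (by exact_mod_cast t.den_pos) hs
  have h2 : Real.pi + Real.exp 1 - (t.num : ℝ) / ((t.den : ℤ) : ℝ) = 0 := by
    rw [← ht]
    have : (t : ℝ) = (t.num : ℝ) / (t.den : ℝ) := by exact_mod_cast (Rat.num_div_den t).symm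
    rw [this]
    push_cast
    ring
  have hs' : (0 : ℝ) < s := by exact_mod_cast hs
  rw [h2, abs_zero, max_eq_right (abs_nonneg _)] at h1
  refine le_trans (le_of_eq ?_) h1
  push_cast
  rw [Real.mul_rpow hd.le hs'.le]
  ring

/-- If `π e` is rational, then `π + e` has irrationality exponent at most `3`. -/
theorem prod_rational (h : ¬ Irrational (Real.pi * Real.exp 1)) (ε : ℝ) (hε : 0 < ε) :
    ∃ c : ℝ, 0 < c ∧ ∀ p q : ℤ, 0 < q → c * (q : ℝ) ^ (-(3 + ε)) ≤
      |Real.pi + Real.exp 1 - p / q| := by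
  obtain ⟨c, hc, hpair⟩ := rat_pair ε hε
  rw [Irrational, not_not] at h
  obtain ⟨t, ht⟩ := h
  have hd : (0 : ℝ) < (t.den : ℝ) := by exact_mod_cast t.den_pos
  refine ⟨c * (t.den : ℝ) ^ (-(3 + ε)), by positivity, fun p q hq => ?_⟩
  have h1 := hpair p q t.num t.den hq (by exact_mod_cast t.den_pos)
  have h2 : Real.pi * Real.exp 1 - (t.num : ℝ) / ((t.den : ℤ) : ℝ) = 0 := by
    rw [← ht]
    have : (t : ℝ) = (t.num : ℝ) / (t.den : ℝ) := by exact_mod_cast (Rat.num_div_den t).symm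
    rw [this]
    push_cast
    ring
  have hq' : (0 : ℝ) < q := by exact_mod_cast hq
  rw [h2, abs_zero, max_eq_left (abs_nonneg _)] at h1
  refine le_trans (le_of_eq ?_) h1
  push_cast
  rw [Real.mul_rpow hq'.le hd.le]
  ring

end Pool.Agent.EMeas
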