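import Mathlib
import Pool.Agent.EMeas.Joint6

/-!
# If one of `π + e`, `π e` is algebraic, the other one is not a Liouville number
-/

set_option autoImplicit false

namespace Pool.Agent.EMeas

open Polynomial Finset

theorem not_liouville (x : ℝ) (hx : |x| ≤ 9) (E c : ℝ) (hc : 0 < c)
    (h : ∀ B : ℤ[X], B ≠ 0 → B.natDegree ≤ 1 → ∀ H : ℝ, (∀ k, |((B.coeff k : ℤ) : ℝ)| ≤ H) →
      c * H ^ (-E) ≤ |aeval x B|) : ¬ Liouville x := by
  intro hL
  obtain ⟨N, hN⟩ : ∃ N : ℕ, (c * 10 ^ (-E))⁻¹ < (2 : ℝ) ^ N :=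
    pow_unbounded_of_one_lt _ (by norm_num)
  obtain ⟨M, hM⟩ := exists_nat_ge E
  obtain ⟨a, b, hb, -, hab⟩ := hL (N + M + 1)
  have hb0 : (0 : ℤ) < b := by omega
  have hb2 : (2 : ℝ) ≤ b := by exact_mod_cast hb
  have hbp : (0 : ℝ) < b := by linarith
  have hpow1 : (1 : ℝ) ≤ (b : ℝ) ^ (N + M + 1) := one_le_pow₀ (by linarith)
  have hle : |x - a / b| ≤ 1 := by
    refine hab.le.trans ?_
    rw [div_le_one (by linarith)]
    exact hpow1
  have h1 := h (C b * X - C a) (lin_ne a b hb0) (lin_natDegree a b) (10 * b)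
    (lin_bound a b x hx hb0 hle)
  have h2 := lin_aeval a b hb0 x
  have h3 : |aeval x (C b * X - C a : ℤ[X])| = |x - a / b| * b := by
    rw [div_eq_iff (by positivity)] at h2
    rw [h2]
    ring
  rw [h3, Real.mul_rpow (by norm_num) hbp.le] at h1
  have h4 : |x - a / b| * b < 1 / (b : ℝ) ^ (N + M) := by
    have h5 : |x - a / b| * b < 1 / (b : ℝ) ^ (N + M + 1) * b := mul_lt_mul_of_pos_right hab hbp
    refine h5.trans_le (le_of_eq ?_)
    rw [pow_succ]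
    field_simp
  have h6 : (b : ℝ) ^ (-E) * (b : ℝ) ^ (N + M) ≥ (2 : ℝ) ^ N := by
    have h7 : (b : ℝ) ^ (-E) * (b : ℝ) ^ M ≥ 1 := by
      rw [← Real.rpow_natCast (b : ℝ) M, ← Real.rpow_add hbp]
      exact Real.one_le_rpow (by linarith) (by linarith)
    have h8 : (2 : ℝ) ^ N ≤ (b : ℝ) ^ N := pow_le_pow_left₀ (by norm_num) hb2 N
    calc (b : ℝ) ^ (-E) * (b : ℝ) ^ (N + M) = ((b : ℝ) ^ (-E) * (b : ℝ) ^ M) * (b : ℝ) ^ N := by
          rw [pow_add]; ring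
      _ ≥ 1 * (2 : ℝ) ^ N := mul_le_mul h7 h8 (by positivity) (by linarith)
      _ = 2 ^ N := one_mul _
  have h9 : c * (10 ^ (-E) * (b : ℝ) ^ (-E)) * (b : ℝ) ^ (N + M) < 1 := by
    have h10 := h1.trans_lt h4
    rwa [lt_div_iff₀ (by positivity)] at h10
  have h11 : 0 < c * (10 : ℝ) ^ (-E) := by positivity
  have h12 : 1 < (c * (10 : ℝ) ^ (-E)) * 2 ^ N := by
    rw [inv_lt_iff_one_lt_mul₀ h11] at hN
    linarith
  have h13 : (c * (10 : ℝ) ^ (-E)) * 2 ^ N ≤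
      (c * (10 : ℝ) ^ (-E)) * ((b : ℝ) ^ (-E) * (b : ℝ) ^ (N + M)) :=
    mul_le_mul_of_nonneg_left h6 h11.le
  have h14 : c * (10 ^ (-E) * (b : ℝ) ^ (-E)) * (b : ℝ) ^ (N + M) =
      (c * (10 : ℝ) ^ (-E)) * ((b : ℝ) ^ (-E) * (b : ℝ) ^ (N + M)) := by ring
  linarith

/-- If `π + e` is algebraic, then `π e` is not a Liouville number. -/
theorem sum_not_liouville (h : IsAlgebraic ℤ (Real.pi + Real.exp 1)) :
    ¬ Liouville (Real.pi * Real.exp 1) := by
  obtain ⟨A, hA, h0⟩ := h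
  have hm : 1 ≤ max 1 A.natDegree := le_max_left _ _
  obtain ⟨c, hc, hB⟩ := sum_algebraic (max 1 A.natDegree) 1 hm le_rfl 1 zero_lt_one A hA
    (le_max_right _ _) h0
  exact not_liouville _ pe9' _ c hc hB

/-- If `π e` is algebraic, then `π + e` is not a Liouville number. -/
theorem prod_not_liouville (h : IsAlgebraic ℤ (Real.pi * Real.exp 1)) :
    ¬ Liouville (Real.pi + Real.exp 1) := by
  obtain ⟨B, hB, h0⟩ := h
  have hm : 1 ≤ max 1 B.natDegree := le_max_left _ _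
  obtain ⟨c, hc, hA⟩ := prod_algebraic 1 (max 1 B.natDegree) le_rfl hm 1 zero_lt_one B hB
    (le_max_right _ _) h0
  exact not_liouville _ pe9 _ c hc hA

end Pool.Agent.EMeas
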